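import Mathlib

/-!
# Weighted transfer inequality for the Kakutani `7x+1` map on the residue classes modulo 30
-/

open Finset

namespace KakSp

/-- the Kakutani map -/
def C (m : ℕ) : ℕ := if 2 ∣ m then m / 2 else if 3 ∣ m then m / 3
  else if 5 ∣ m then m / 5 else 7 * m + 1

/-- the data of the transfer inequality: weights `c2, c3, c5, c7` of the four kinds of steps and the
growth numbers `L`, `B` (all in units of `1/100000`), and two positive vectors `H`, `G` on the
residue classes modulo `30` -/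
structure Data where
  c2 : ℕ
  c3 : ℕ
  c5 : ℕ
  c7 : ℕ
  L : ℕ
  B : ℕ
  e : ℕ
  m : ℕ
  H : ℕ → ℕ
  G : ℕ → ℕ
  H_pos : ∀ r < 30, 1 ≤ H r
  G_pos : ∀ r < 30, 1 ≤ G r
  H2 : ∀ r < 30, r % 2 = 0 → c2 * (H (r / 2) + H (r / 2 + 15)) ≤ 2 * L * H r
  H3 : ∀ r < 30, r % 2 ≠ 0 → r % 3 = 0 →
    c3 * (H (r / 3) + H (r / 3 + 10) + H (r / 3 + 20)) ≤ 3 * L * H r
  H5 : ∀ r < 30, r % 2 ≠ 0 → r % 3 ≠ 0 → r % 5 = 0 →
    c5 * (H (r / 5) + H (r / 5 + 6) + H (r / 5 + 12) + H (r / 5 + 18) + H (r / 5 + 24))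
      ≤ 5 * L * H r
  H7 : ∀ r < 30, r % 2 ≠ 0 → r % 3 ≠ 0 → r % 5 ≠ 0 → c7 * H ((7 * r + 1) % 30) ≤ L * H r
  G2 : ∀ r < 30, r % 2 = 0 → c2 * (G (r / 2) + G (r / 2 + 15)) ≤ B * G r
  G3 : ∀ r < 30, r % 2 ≠ 0 → r % 3 = 0 →
    c3 * (G (r / 3) + G (r / 3 + 10) + G (r / 3 + 20)) ≤ B * G r
  G5 : ∀ r < 30, r % 2 ≠ 0 → r % 3 ≠ 0 → r % 5 = 0 →
    c5 * (G (r / 5) + G (r / 5 + 6) + G (r / 5 + 12) + G (r / 5 + 18) + G (r / 5 + 24))
      ≤ B * G r
  G7 : ∀ r < 30, r % 2 ≠ 0 → r % 3 ≠ 0 → r % 5 ≠ 0 →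
    c7 * (H ((7 * r + 1) % 30) + 7 * G ((7 * r + 1) % 30)) ≤ 7 * B * G r
  L_pos : 0 < L
  L_lt : L < 100000
  L_half : 50000 ≤ L
  LB : L ≤ B
  LBm : B * L ^ (m - 1) ≤ 100000 ^ m
  m_pos : 1 ≤ m
  e_pos : 1 ≤ e
  w2 : 100000 ^ e ≤ 2 * c2 ^ e
  w3 : 100000 ^ e ≤ 3 * c3 ^ e
  w5 : 100000 ^ e ≤ 5 * c5 ^ e
  w7 : 50 * 100000 ^ e ≤ 7 * c7 ^ e

variable (D : Data)

/-- the weight of one step (in units of `1/100000`) -/
def wN (m : ℕ) : ℕ := if 2 ∣ m then D.c2 else if 3 ∣ m then D.c3
  else if 5 ∣ m then D.c5 else D.c7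

/-- the weight of one step -/
noncomputable def w (m : ℕ) : ℝ := (wN D m : ℝ) / 100000

lemma w_nonneg (m : ℕ) : 0 ≤ w D m := by unfold w; positivity

/-- the weight of an orbit segment -/
noncomputable def W : ℕ → ℕ → ℝ
  | 0, _ => 1
  | k + 1, n => w D n * W k (C n)

lemma W_nonneg (k n : ℕ) : 0 ≤ W D k n := by
  induction k generalizing n with
  | zero => simp [W]
  | succ k ih => exact mul_nonneg (w_nonneg D n) (ih _)

/-- the set of `n ≤ X` in a class modulo `q` and a class modulo `30` -/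
def S (X q b r : ℕ) : Finset ℕ :=
  (range (X + 1)).filter (fun n => n % q = b % q ∧ n % 30 = r)

lemma mem_S {X q b r n : ℕ} : n ∈ S X q b r ↔ n ≤ X ∧ n % q = b % q ∧ n % 30 = r := by
  unfold S
  rw [mem_filter, mem_range, Nat.lt_succ_iff]

lemma card_S (X q b r : ℕ) (hq : 0 < q) (hc : Nat.Coprime q 30) :
    ((S X q b r).card : ℝ) ≤ (X : ℝ) / q + 1 := by
  have h1 : (S X q b r).card ≤ (range (X / (30 * q) + 1)).card := by
    apply Finset.card_le_card_of_injOn (fun n => n / (30 * q))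
    · intro n hn
      have hn' := mem_S.1 (Finset.mem_coe.1 hn)
      rw [Finset.mem_coe, mem_range, Nat.lt_succ_iff]
      exact Nat.div_le_div_right hn'.1
    · intro n hn m hm h
      have hn' := mem_S.1 (Finset.mem_coe.1 hn)
      have hm' := mem_S.1 (Finset.mem_coe.1 hm)
      have e1 : n ≡ m [MOD q] := by
        unfold Nat.ModEq; rw [hn'.2.1, hm'.2.1]
      have e2 : n ≡ m [MOD 30] := by
        unfold Nat.ModEq; rw [hn'.2.2, hm'.2.2]
      have e3 : n ≡ m [MOD (30 * q)] :=
        (Nat.modEq_and_modEq_iff_modEq_mul hc.symm).1 ⟨e2, e1⟩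
      have e4 : n % (30 * q) = m % (30 * q) := e3
      have h' : n / (30 * q) = m / (30 * q) := h
      rw [← Nat.div_add_mod n (30 * q), ← Nat.div_add_mod m (30 * q), h', e4]
  rw [card_range] at h1
  have h2 : ((S X q b r).card : ℝ) ≤ ((X / (30 * q) : ℕ) : ℝ) + 1 := by exact_mod_cast h1
  have h3 : ((X / (30 * q) : ℕ) : ℝ) ≤ (X : ℝ) / q := by
    calc ((X / (30 * q) : ℕ) : ℝ) ≤ ((X / q : ℕ) : ℝ) := by
          exact_mod_cast Nat.div_le_div_left (by omega) hq
      _ ≤ (X : ℝ) / q := Nat.cast_div_le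
  linarith

/-- one division step, abstractly -/
lemma div_step (p d : ℕ) (hp : 0 < p) (hpd : p * d = 30) (X q b r : ℕ)
    (hc : Nat.Coprime q p) (hr : r % p = 0) (f : ℕ → ℝ) (hf : ∀ n, 0 ≤ f n) :
    ∃ b', ∑ n ∈ S X q b r, f (n / p) ≤
      ∑ j ∈ range p, ∑ m ∈ S (X / p) q b' (r / p + d * j), f m := by
  rcases (S X q b r).eq_empty_or_nonempty with he | ⟨n0, hn0⟩
  · refine ⟨0, ?_⟩
    rw [he, sum_empty]
    exact sum_nonneg (fun j _ => sum_nonneg (fun m _ => hf m))
  · refine ⟨n0 / p, ?_⟩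
    have hn0' := mem_S.1 hn0
    have hp30 : p ∣ 30 := ⟨d, hpd.symm⟩
    have hdiv : ∀ n, n % 30 = r → p ∣ n := by
      intro n hn
      have : p ∣ n % 30 := by rw [hn]; exact Nat.dvd_of_mod_eq_zero hr
      exact (Nat.dvd_mod_iff hp30).1 this
    have hd : 0 < d := by
      rcases Nat.eq_zero_or_pos d with h | h
      · rw [h, mul_zero] at hpd; omega
      · exact h
    have hinj : Set.InjOn (fun n => n / p) (S X q b r : Set ℕ) := by
      intro n hn m hm h
      have hn' := mem_S.1 (Finset.mem_coe.1 hn)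
      have hm' := mem_S.1 (Finset.mem_coe.1 hm)
      have h' : n / p = m / p := h
      rw [← Nat.mul_div_cancel' (hdiv n hn'.2.2), ← Nat.mul_div_cancel' (hdiv m hm'.2.2), h']
    have h1 : ∑ n ∈ S X q b r, f (n / p) = ∑ m ∈ (S X q b r).image (fun n => n / p), f m := by
      rw [sum_image hinj]
    rw [h1]
    have hdisj : (↑(range p) : Set ℕ).PairwiseDisjoint
        (fun j => S (X / p) q (n0 / p) (r / p + d * j)) := by
      intro i _ j _ hij
      show Disjoint (S (X / p) q (n0 / p) (r / p + d * i)) (S (X / p) q (n0 / p) (r / p + d * j))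
      rw [Finset.disjoint_left]
      intro m hmi hmj
      have h1 := (mem_S.1 hmi).2.2
      have h2 := (mem_S.1 hmj).2.2
      apply hij
      have h3 : d * i = d * j := by omega
      exact Nat.eq_of_mul_eq_mul_left hd h3
    rw [← sum_biUnion hdisj]
    apply sum_le_sum_of_subset_of_nonneg
    · intro m hm
      rw [mem_image] at hm
      obtain ⟨n, hn, rfl⟩ := hm
      have hn' := mem_S.1 hn
      have hpn : p ∣ n := hdiv n hn'.2.2
      have hpn0 : p ∣ n0 := hdiv n0 hn0'.2.2
      rw [mem_biUnion]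
      have hm30 : (n / p) % d = r / p := by
        obtain ⟨m, rfl⟩ := hpn
        rw [Nat.mul_div_cancel_left _ hp]
        have h4 := hn'.2.2
        rw [← hpd, Nat.mul_mod_mul_left] at h4
        rw [← h4, Nat.mul_div_cancel_left _ hp]
      have hlt : (n / p) % 30 < p * d := by rw [hpd]; exact Nat.mod_lt _ (by norm_num)
      refine ⟨((n / p) % 30) / d, ?_, ?_⟩
      · rw [mem_range]
        exact Nat.div_lt_of_lt_mul (by rw [mul_comm]; exact hlt)
      · rw [mem_S]
        refine ⟨Nat.div_le_div_right hn'.1, ?_, ?_⟩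
        · have e1 : p * (n / p) ≡ p * (n0 / p) [MOD q] := by
            rw [Nat.mul_div_cancel' hpn, Nat.mul_div_cancel' hpn0]
            unfold Nat.ModEq
            rw [hn'.2.1, hn0'.2.1]
          exact Nat.ModEq.cancel_left_of_coprime hc e1
        · have h5 : ((n / p) % 30) % d = r / p := by
            rw [← hm30]
            exact Nat.mod_mod_of_dvd _ ⟨p, by rw [← hpd]; ring⟩
          have h6 := Nat.div_add_mod ((n / p) % 30) d
          rw [h5] at h6
          omega
    · intro m _ _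
      exact hf m

/-- one step of type `7n+1` -/
lemma up_step (X q b r : ℕ) (f : ℕ → ℝ) (hf : ∀ n, 0 ≤ f n) :
    ∑ n ∈ S X q b r, f (7 * n + 1) ≤
      ∑ m ∈ S (7 * X + 1) (7 * q) (7 * b + 1) ((7 * r + 1) % 30), f m := by
  have hinj : Set.InjOn (fun n => 7 * n + 1) (S X q b r : Set ℕ) := by
    intro n _ m _ h
    have h' : 7 * n + 1 = 7 * m + 1 := h
    omega
  have h1 : ∑ n ∈ S X q b r, f (7 * n + 1)
      = ∑ m ∈ (S X q b r).image (fun n => 7 * n + 1), f m := by
    rw [sum_image hinj]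
  rw [h1]
  apply sum_le_sum_of_subset_of_nonneg
  · intro m hm
    rw [mem_image] at hm
    obtain ⟨n, hn, rfl⟩ := hm
    have hn' := mem_S.1 hn
    rw [mem_S]
    refine ⟨by omega, ?_, by omega⟩
    have e1 : n ≡ b [MOD q] := hn'.2.1
    have e2 : 7 * n ≡ 7 * b [MOD (7 * q)] := Nat.ModEq.mul_left' 7 e1
    exact Nat.ModEq.add_right 1 e2
  · intro m _ _
    exact hf m

/-- the data with `θ = 1/3` -/
def D3 : Data where
  c2 := 79371
  c3 := 69337
  c5 := 58481
  c7 := 192586
  L := 96705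
  B := 187650
  e := 3
  m := 20
  H := fun r => [14576, 86063, 50210, 40693, 32521, 39711, 28540, 42519, 43212, 44428, 25059,
    57452, 22687, 100000, 36537, 20940, 36278, 29031, 28846, 72769, 21349, 26739, 46508, 45184,
    25859, 26959, 55870, 40322, 36132, 51502].getD r 1
  G := fun r => [73373388, 37105696, 30616556, 53779660, 44844570, 81958572, 38655831, 65229124,
    36134091, 48930418, 61568487, 38569837, 45895227, 31439801, 39474944, 100000000, 35237917,
    75346317, 37559893, 40536382, 63521111, 69789630, 28045904, 47129299, 39819550, 88525035,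
    27699605, 48194068, 34011373, 40890254].getD r 1
  H_pos := by decide
  G_pos := by decide
  H2 := by decide
  H3 := by decide
  H5 := by decide
  H7 := by decide
  G2 := by decide
  G3 := by decide
  G5 := by decide
  G7 := by decide
  L_pos := by norm_num
  L_lt := by norm_num
  L_half := by norm_num
  LB := by norm_num
  LBm := by norm_num
  m_pos := by norm_num
  e_pos := by norm_num
  w2 := by norm_num
  w3 := by norm_num
  w5 := by norm_num
  w7 := by norm_num

/-- the data with `θ = 1/10` -/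
def D10 : Data where
  c2 := 93304
  c3 := 89596
  c5 := 85134
  c7 := 121728
  L := 98430
  B := 202400
  e := 10
  m := 46
  H := fun r => [56126, 95930, 80853, 75467, 71229, 75146, 68232, 78216, 77562, 77494, 65596,
    84698, 64609, 100000, 74708, 62282, 74643, 69418, 68480, 92401, 63239, 68071, 79395, 79909,
    66977, 67819, 82799, 76692, 74679, 82839].getD r 1
  G := fun r => [85678200, 12031781, 14359557, 34093905, 30426117, 57109011, 27810527, 33502569,
    19986204, 28410664, 52031608, 15758006, 35514272, 8644515, 21407066, 100000000, 19087648,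
    51578647, 26175901, 12887146, 55651708, 49154514, 12889927, 21379745, 28316651, 68574438,
    12176502, 25852386, 17743889, 17046746].getD r 1
  H_pos := by decide
  G_pos := by decide
  H2 := by decide
  H3 := by decide
  H5 := by decide
  H7 := by decide
  G2 := by decide
  G3 := by decide
  G5 := by decide
  G7 := by decide
  L_pos := by norm_num
  L_lt := by norm_num
  L_half := by norm_num
  LB := by norm_num
  LBm := by norm_num
  m_pos := by norm_num
  e_pos := by norm_num
  w2 := by norm_num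
  w3 := by norm_num
  w5 := by norm_num
  w7 := by norm_num

end KakSp
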