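import Mathlib
import Pool.Agent.Lib.KakSp.Basic

/-!
# The transfer inequality
-/

open Finset

namespace KakSp

variable (D : Data)

noncomputable def lam : ℝ := (D.L : ℝ) / 100000
noncomputable def Bt : ℝ := (D.B : ℝ) / 100000

lemma combine (p : ℕ) (hp : 0 < p) (cN : ℕ) (s : Finset ℕ) (t : ℕ → ℕ) (L M Y Y' : ℝ) (r : ℕ)
    (hL : 0 ≤ L) (hM : 0 ≤ M) (hY : Y' ≤ Y / p) (hY' : 0 ≤ Y')
    (hH : cN * ∑ j ∈ s, D.H (t j) ≤ p * D.L * D.H r)
    (hG : cN * ∑ j ∈ s, D.G (t j) ≤ D.B * D.G r) :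
    (cN : ℝ) / 100000 * ∑ j ∈ s, (L * D.H (t j) * Y' + M * D.G (t j))
      ≤ L * lam D * D.H r * Y + M * Bt D * D.G r := by
  have hH' : (cN : ℝ) * ∑ j ∈ s, (D.H (t j) : ℝ) ≤ p * D.L * D.H r := by exact_mod_cast hH
  have hG' : (cN : ℝ) * ∑ j ∈ s, (D.G (t j) : ℝ) ≤ D.B * D.G r := by exact_mod_cast hG
  have hp' : (0 : ℝ) < p := by exact_mod_cast hp
  have e : ∑ j ∈ s, (L * D.H (t j) * Y' + M * D.G (t j))
      = L * Y' * (∑ j ∈ s, (D.H (t j) : ℝ)) + M * ∑ j ∈ s, (D.G (t j) : ℝ) := by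
    rw [sum_add_distrib, mul_sum, mul_sum]
    congr 1
    apply sum_congr rfl
    intro j _
    ring
  rw [e]
  have t1 : L * Y' * ((cN : ℝ) * ∑ j ∈ s, (D.H (t j) : ℝ)) ≤ L * Y' * (p * D.L * D.H r) :=
    mul_le_mul_of_nonneg_left hH' (mul_nonneg hL hY')
  have t2 : L * (p * D.L * D.H r) * Y' ≤ L * (p * D.L * D.H r) * (Y / p) :=
    mul_le_mul_of_nonneg_left hY (by positivity)
  have t3 : M * ((cN : ℝ) * ∑ j ∈ s, (D.G (t j) : ℝ)) ≤ M * (D.B * D.G r) :=
    mul_le_mul_of_nonneg_left hG' hM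
  have t4 : L * (p * D.L * D.H r) * (Y / p) = L * D.L * D.H r * Y := by
    field_simp
  rw [t4] at t2
  unfold lam Bt
  linarith

lemma div_case (p d : ℕ) (hp : 0 < p) (hpd : p * d = 30) (cN : ℕ) (k : ℕ)
    (ih : ∀ X q b r, 0 < q → Nat.Coprime q 30 → r < 30 →
      ∑ n ∈ S X q b r, W D k n ≤ lam D ^ k * D.H r * ((X : ℝ) / q) + Bt D ^ k * D.G r)
    (X q b r : ℕ) (hq : 0 < q) (hc : Nat.Coprime q 30) (hr : r < 30) (hrp : r % p = 0)
    (hstep : ∀ n, n % 30 = r → C n = n / p ∧ wN D n = cN)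
    (hH : cN * ∑ j ∈ range p, D.H (r / p + d * j) ≤ p * D.L * D.H r)
    (hG : cN * ∑ j ∈ range p, D.G (r / p + d * j) ≤ D.B * D.G r) :
    ∑ n ∈ S X q b r, W D (k + 1) n
      ≤ lam D ^ (k + 1) * D.H r * ((X : ℝ) / q) + Bt D ^ (k + 1) * D.G r := by
  have hcp : Nat.Coprime q p := Nat.Coprime.coprime_dvd_right ⟨d, hpd.symm⟩ hc
  obtain ⟨b', hb'⟩ := div_step p d hp hpd X q b r hcp hrp (W D k) (W_nonneg D k)
  have hq' : (0 : ℝ) < q := by exact_mod_cast hq
  have e1 : ∑ n ∈ S X q b r, W D (k + 1) n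
      = (cN : ℝ) / 100000 * ∑ n ∈ S X q b r, W D k (n / p) := by
    rw [mul_sum]
    apply sum_congr rfl
    intro n hn
    have hs := hstep n (mem_S.1 hn).2.2
    show w D n * W D k (C n) = _
    unfold w
    rw [hs.1, hs.2]
  have hd : 0 < d := by
    rcases Nat.eq_zero_or_pos d with h | h
    · rw [h, mul_zero] at hpd; omega
    · exact h
  have e2 : ∑ j ∈ range p, ∑ m ∈ S (X / p) q b' (r / p + d * j), W D k m ≤
      ∑ j ∈ range p, (lam D ^ k * D.H (r / p + d * j) * (((X / p : ℕ) : ℝ) / q)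
        + Bt D ^ k * D.G (r / p + d * j)) := by
    apply sum_le_sum
    intro j hj
    apply ih _ _ _ _ hq hc
    have hj' := mem_range.1 hj
    have h1 : r / p < d := Nat.div_lt_of_lt_mul (by rw [hpd]; exact hr)
    have h2 : d * (j + 1) ≤ d * p := Nat.mul_le_mul_left _ hj'
    have h3 : d * p = 30 := by rw [mul_comm]; exact hpd
    rw [mul_add, mul_one] at h2
    omega
  rw [e1, pow_succ, pow_succ]
  refine le_trans (mul_le_mul_of_nonneg_left (le_trans hb' e2) (by positivity)) ?_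
  apply combine D p hp cN (range p) (fun j => r / p + d * j) _ _ _ _ r _ _ _ _ hH hG
  · unfold lam; positivity
  · unfold Bt; positivity
  · rw [div_div, mul_comm (q : ℝ) p, ← div_div]
    exact div_le_div_of_nonneg_right Nat.cast_div_le hq'.le
  · positivity

theorem main_bd (k : ℕ) : ∀ X q b r, 0 < q → Nat.Coprime q 30 → r < 30 →
    ∑ n ∈ S X q b r, W D k n ≤ lam D ^ k * D.H r * ((X : ℝ) / q) + Bt D ^ k * D.G r := by
  induction k with
  | zero =>
    intro X q b r hq hc hr
    have h1 := card_S X q b r hq hc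
    have hH : (1 : ℝ) ≤ D.H r := by exact_mod_cast D.H_pos r hr
    have hG : (1 : ℝ) ≤ D.G r := by exact_mod_cast D.G_pos r hr
    have hY : (0 : ℝ) ≤ (X : ℝ) / q := by positivity
    have e : ∑ n ∈ S X q b r, W D 0 n = ((S X q b r).card : ℝ) := by
      simp [W]
    rw [e, pow_zero, pow_zero, one_mul, one_mul]
    have h2 : (X : ℝ) / q ≤ D.H r * ((X : ℝ) / q) := le_mul_of_one_le_left hY hH
    linarith
  | succ k ih =>
    intro X q b r hq hc hr
    by_cases h2 : r % 2 = 0
    · refine div_case D 2 15 (by norm_num) (by norm_num) D.c2 k ih X q b r hq hc hr h2 ?_ ?_ ?_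
      · intro n hn
        have : 2 ∣ n := by omega
        constructor
        · unfold C; rw [if_pos this]
        · unfold wN; rw [if_pos this]
      · have := D.H2 r hr h2
        simpa [sum_range_succ] using this
      · have := D.G2 r hr h2
        simpa [sum_range_succ] using this
    by_cases h3 : r % 3 = 0
    · refine div_case D 3 10 (by norm_num) (by norm_num) D.c3 k ih X q b r hq hc hr h3 ?_ ?_ ?_
      · intro n hn
        have a2 : ¬ 2 ∣ n := by omega
        have a3 : 3 ∣ n := by omega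
        constructor
        · unfold C; rw [if_neg a2, if_pos a3]
        · unfold wN; rw [if_neg a2, if_pos a3]
      · have := D.H3 r hr h2 h3
        simpa [sum_range_succ] using this
      · have := D.G3 r hr h2 h3
        simpa [sum_range_succ] using this
    by_cases h5 : r % 5 = 0
    · refine div_case D 5 6 (by norm_num) (by norm_num) D.c5 k ih X q b r hq hc hr h5 ?_ ?_ ?_
      · intro n hn
        have a2 : ¬ 2 ∣ n := by omega
        have a3 : ¬ 3 ∣ n := by omega
        have a5 : 5 ∣ n := by omega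
        constructor
        · unfold C; rw [if_neg a2, if_neg a3, if_pos a5]
        · unfold wN; rw [if_neg a2, if_neg a3, if_pos a5]
      · have := D.H5 r hr h2 h3 h5
        simpa [sum_range_succ] using this
      · have := D.G5 r hr h2 h3 h5
        simpa [sum_range_succ] using this
    · have hq' : (0 : ℝ) < q := by exact_mod_cast hq
      have e1 : ∑ n ∈ S X q b r, W D (k + 1) n
          = (D.c7 : ℝ) / 100000 * ∑ n ∈ S X q b r, W D k (7 * n + 1) := by
        rw [mul_sum]
        apply sum_congr rfl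
        intro n hn
        have hn30 := (mem_S.1 hn).2.2
        have a2 : ¬ 2 ∣ n := by omega
        have a3 : ¬ 3 ∣ n := by omega
        have a5 : ¬ 5 ∣ n := by omega
        have c1 : C n = 7 * n + 1 := by unfold C; rw [if_neg a2, if_neg a3, if_neg a5]
        have c2 : wN D n = D.c7 := by unfold wN; rw [if_neg a2, if_neg a3, if_neg a5]
        show w D n * W D k (C n) = _
        unfold w
        rw [c1, c2]
      have hc7 : Nat.Coprime (7 * q) 30 := Nat.Coprime.mul_left (by norm_num) hc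
      have e2 := ih (7 * X + 1) (7 * q) (7 * b + 1) ((7 * r + 1) % 30) (by omega) hc7
        (Nat.mod_lt _ (by norm_num))
      have e3 := up_step X q b r (W D k) (W_nonneg D k)
      have hH : (D.c7 : ℝ) * D.H ((7 * r + 1) % 30) ≤ D.L * D.H r := by
        exact_mod_cast D.H7 r hr h2 h3 h5
      have hG : (D.c7 : ℝ) * (D.H ((7 * r + 1) % 30) + 7 * D.G ((7 * r + 1) % 30))
          ≤ 7 * D.B * D.G r := by
        exact_mod_cast D.G7 r hr h2 h3 h5
      set H' : ℝ := (D.H ((7 * r + 1) % 30) : ℝ) with hH'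
      set G' : ℝ := (D.G ((7 * r + 1) % 30) : ℝ) with hG'
      have hH0 : 0 ≤ H' := by rw [hH']; positivity
      have hc0 : (0 : ℝ) ≤ D.c7 := by positivity
      have hL : 0 ≤ lam D ^ k := by unfold lam; positivity
      have hM : 0 ≤ Bt D ^ k := by unfold Bt; positivity
      have hLM : lam D ^ k ≤ Bt D ^ k := by
        apply pow_le_pow_left₀
        · unfold lam; positivity
        · unfold lam Bt
          have : (D.L : ℝ) ≤ D.B := by exact_mod_cast D.LB
          exact div_le_div_of_nonneg_right this (by norm_num)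
      have e4 : (((7 * X + 1 : ℕ) : ℝ) / ((7 * q : ℕ) : ℝ)) ≤ (X : ℝ) / q + 1 / 7 := by
        have hq1 : (1 : ℝ) ≤ q := by exact_mod_cast hq
        push_cast
        rw [div_add_div _ _ hq'.ne' (by norm_num), div_le_div_iff₀ (by positivity) (by positivity)]
        nlinarith
      have e5 : lam D ^ k * H' * (((7 * X + 1 : ℕ) : ℝ) / ((7 * q : ℕ) : ℝ))
          ≤ lam D ^ k * H' * ((X : ℝ) / q + 1 / 7) :=
        mul_le_mul_of_nonneg_left e4 (mul_nonneg hL hH0)
      have e6 : D.c7 * (lam D ^ k * H') ≤ D.c7 * (Bt D ^ k * H') :=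
        mul_le_mul_of_nonneg_left (mul_le_mul_of_nonneg_right hLM hH0) hc0
      have e7 : lam D ^ k * ((X : ℝ) / q) * ((D.c7 : ℝ) * H')
          ≤ lam D ^ k * ((X : ℝ) / q) * (D.L * D.H r) :=
        mul_le_mul_of_nonneg_left hH (by positivity)
      have e8 : Bt D ^ k * ((D.c7 : ℝ) * (H' + 7 * G')) ≤ Bt D ^ k * (7 * D.B * D.G r) :=
        mul_le_mul_of_nonneg_left hG hM
      rw [e1, pow_succ, pow_succ]
      have e9 : ∑ n ∈ S X q b r, W D k (7 * n + 1)
          ≤ lam D ^ k * H' * ((X : ℝ) / q + 1 / 7) + Bt D ^ k * G' := by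
        linarith
      have e10 : (D.c7 : ℝ) / 100000 * ∑ n ∈ S X q b r, W D k (7 * n + 1)
          ≤ (D.c7 : ℝ) / 100000 * (lam D ^ k * H' * ((X : ℝ) / q + 1 / 7) + Bt D ^ k * G') :=
        mul_le_mul_of_nonneg_left e9 (by positivity)
      refine le_trans e10 ?_
      have el : lam D = D.L / 100000 := rfl
      have eb : Bt D = D.B / 100000 := rfl
      have e11 : lam D ^ k * lam D * D.H r * ((X : ℝ) / q)
          = lam D ^ k * ((X : ℝ) / q) * (D.L * D.H r) / 100000 := by
        rw [show lam D ^ k * lam D = lam D ^ k * (D.L / 100000) by rw [← el]]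
        ring
      have e12 : Bt D ^ k * Bt D * D.G r = Bt D ^ k * (7 * D.B * D.G r) / 700000 := by
        rw [show Bt D ^ k * Bt D = Bt D ^ k * (D.B / 100000) by rw [← eb]]
        ring
      rw [e11, e12]
      linarith

end KakSp
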