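import Mathlib
import Pool.Agent.Lib.KakSp.Trans

/-!
# Sparsity of the cycles of the Kakutani `7x+1` map
-/

open Finset

namespace KakSp

variable (D : Data)

lemma total (K X : ℕ) : ∑ n ∈ range (X + 1), W D K n ≤
    lam D ^ K * (∑ r ∈ range 30, (D.H r : ℝ)) * X + Bt D ^ K * ∑ r ∈ range 30, (D.G r : ℝ) := by
  have h0 : ∑ n ∈ range (X + 1), W D K n = ∑ r ∈ range 30, ∑ n ∈ S X 1 0 r, W D K n := by
    rw [← Finset.sum_fiberwise_of_maps_to (g := fun n => n % 30) (t := range 30)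
      (fun n _ => mem_range.2 (Nat.mod_lt _ (by norm_num)))]
    apply sum_congr rfl
    intro r _
    apply sum_congr _ (fun _ _ => rfl)
    ext n
    rw [mem_filter, mem_range, mem_S, Nat.lt_succ_iff]
    simp [Nat.mod_one]
  rw [h0, mul_sum, mul_sum, sum_mul, ← sum_add_distrib]
  apply sum_le_sum
  intro r hr
  have := main_bd D K X 1 0 r (by norm_num) (by norm_num) (mem_range.1 hr)
  simpa using this

/-- the constant of the total weight -/
noncomputable def C0 : ℝ :=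
  2 * (∑ r ∈ range 30, (D.H r : ℝ)) + ∑ r ∈ range 30, (D.G r : ℝ)

lemma C0_pos : 0 < C0 D := by
  unfold C0
  have h1 : (0 : ℝ) < ∑ r ∈ range 30, (D.H r : ℝ) :=
    sum_pos (fun r hr => by exact_mod_cast D.H_pos r (mem_range.1 hr)) ⟨0, by simp⟩
  have h2 : (0 : ℝ) < ∑ r ∈ range 30, (D.G r : ℝ) :=
    sum_pos (fun r hr => by exact_mod_cast D.G_pos r (mem_range.1 hr)) ⟨0, by simp⟩
  linarith

lemma total_bd (s : ℝ) (hs : 1 ≤ s) (X : ℕ) (hX : (X : ℝ) ≤ s ^ D.m) :
    ∃ K, ((lam D)⁻¹) ^ K ≤ s ∧ ∑ n ∈ range (X + 1), W D K n ≤ C0 D * s ^ (D.m - 1) := by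
  have hLpos : (0 : ℝ) < D.L := by exact_mod_cast D.L_pos
  have hLlt : (D.L : ℝ) < 100000 := by exact_mod_cast D.L_lt
  have hLhalf : (50000 : ℝ) ≤ D.L := by exact_mod_cast D.L_half
  have hlam : 0 < lam D := by unfold lam; positivity
  have hrhoe : (lam D)⁻¹ = 100000 / D.L := by unfold lam; rw [inv_div]
  have hrho : 1 < (lam D)⁻¹ := by rw [hrhoe, lt_div_iff₀ hLpos]; linarith
  have hrho2 : (lam D)⁻¹ ≤ 2 := by rw [hrhoe, div_le_iff₀ hLpos]; linarith
  have hBt : 0 ≤ Bt D := by unfold Bt; positivity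
  have hm := D.m_pos
  have hBr : Bt D ≤ ((lam D)⁻¹) ^ (D.m - 1) := by
    have h1 : (D.B : ℝ) * (D.L : ℝ) ^ (D.m - 1) ≤ 100000 ^ D.m := by exact_mod_cast D.LBm
    have h2 : (100000 : ℝ) ^ D.m = 100000 ^ (D.m - 1) * 100000 := by
      rw [← pow_succ]; congr 1; omega
    rw [hrhoe, div_pow]
    unfold Bt
    rw [div_le_div_iff₀ (by norm_num) (by positivity)]
    rw [h2] at h1
    linarith
  obtain ⟨K, hK1, hK2⟩ := exists_nat_pow_near hs hrho
  refine ⟨K, hK1, (total D K X).trans ?_⟩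
  have hs0 : 0 ≤ s := by linarith
  have hHS : (0 : ℝ) ≤ ∑ r ∈ range 30, (D.H r : ℝ) := sum_nonneg (fun r _ => by positivity)
  have hGS : (0 : ℝ) ≤ ∑ r ∈ range 30, (D.G r : ℝ) := sum_nonneg (fun r _ => by positivity)
  have h1 : lam D ^ K * s ≤ 2 := by
    have : lam D ^ K * s ≤ lam D ^ K * ((lam D)⁻¹) ^ (K + 1) :=
      mul_le_mul_of_nonneg_left hK2.le (by positivity)
    have e : lam D ^ K * ((lam D)⁻¹) ^ (K + 1) = (lam D)⁻¹ := by
      rw [pow_succ, ← mul_assoc, ← mul_pow, mul_inv_cancel₀ hlam.ne', one_pow, one_mul]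
    rw [e] at this
    linarith
  have hsm : s ^ D.m = s * s ^ (D.m - 1) := by
    rw [← pow_succ']; congr 1; omega
  have h2 : lam D ^ K * (X : ℝ) ≤ 2 * s ^ (D.m - 1) := by
    calc lam D ^ K * (X : ℝ) ≤ lam D ^ K * s ^ D.m :=
          mul_le_mul_of_nonneg_left hX (by positivity)
      _ = (lam D ^ K * s) * s ^ (D.m - 1) := by rw [hsm]; ring
      _ ≤ 2 * s ^ (D.m - 1) := mul_le_mul_of_nonneg_right h1 (by positivity)
  have h3 : Bt D ^ K ≤ s ^ (D.m - 1) := by
    calc Bt D ^ K ≤ (((lam D)⁻¹) ^ (D.m - 1)) ^ K := pow_le_pow_left₀ hBt hBr K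
      _ = (((lam D)⁻¹) ^ K) ^ (D.m - 1) := by rw [← pow_mul, ← pow_mul, mul_comm]
      _ ≤ s ^ (D.m - 1) := pow_le_pow_left₀ (by positivity) hK1 _
  have h4 : lam D ^ K * (∑ r ∈ range 30, (D.H r : ℝ)) * X
      ≤ (∑ r ∈ range 30, (D.H r : ℝ)) * (2 * s ^ (D.m - 1)) := by
    rw [mul_comm (lam D ^ K), mul_assoc]
    exact mul_le_mul_of_nonneg_left h2 hHS
  have h5 : Bt D ^ K * ∑ r ∈ range 30, (D.G r : ℝ)
      ≤ s ^ (D.m - 1) * ∑ r ∈ range 30, (D.G r : ℝ) :=
    mul_le_mul_of_nonneg_right h3 hGS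
  unfold C0
  calc _ ≤ (∑ r ∈ range 30, (D.H r : ℝ)) * (2 * s ^ (D.m - 1))
        + s ^ (D.m - 1) * ∑ r ∈ range 30, (D.G r : ℝ) := add_le_add h4 h5
    _ = _ := by ring

lemma C_pos (n : ℕ) (hn : 1 ≤ n) : 1 ≤ C n := by
  unfold C
  split_ifs with h2 h3 h5
  · exact Nat.div_pos (Nat.le_of_dvd hn h2) (by norm_num)
  · exact Nat.div_pos (Nat.le_of_dvd hn h3) (by norm_num)
  · exact Nat.div_pos (Nat.le_of_dvd hn h5) (by norm_num)
  · omega

lemma iter_pos (k n : ℕ) (hn : 1 ≤ n) : 1 ≤ C^[k] n := by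
  induction k generalizing n with
  | zero => exact hn
  | succ k ih => rw [Function.iterate_succ_apply]; exact ih _ (C_pos n hn)

lemma frac_bd (c e p : ℕ) (hp : 0 < p) (h : 100000 ^ e ≤ p * c ^ e) (n : ℕ) :
    ((n / p : ℕ) : ℝ) ≤ n * ((c : ℝ) / 100000) ^ e := by
  have hp' : (0 : ℝ) < p := by exact_mod_cast hp
  have h1 : ((n / p : ℕ) : ℝ) ≤ (n : ℝ) / p := Nat.cast_div_le
  refine h1.trans ?_
  have h2 : (100000 : ℝ) ^ e ≤ p * (c : ℝ) ^ e := by exact_mod_cast h
  have h3 : 1 / (p : ℝ) ≤ ((c : ℝ) / 100000) ^ e := by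
    rw [div_pow, div_le_div_iff₀ hp' (by positivity)]
    linarith
  calc (n : ℝ) / p = n * (1 / p) := by ring
    _ ≤ _ := mul_le_mul_of_nonneg_left h3 (by positivity)

lemma step_bd (n : ℕ) (h1 : n ≠ 1) : (C n : ℝ) ≤ n * w D n ^ D.e := by
  unfold C w wN
  split_ifs with h2 h3 h5
  · exact frac_bd D.c2 D.e 2 (by norm_num) D.w2 n
  · exact frac_bd D.c3 D.e 3 (by norm_num) D.w3 n
  · exact frac_bd D.c5 D.e 5 (by norm_num) D.w5 n
  · have h7 : 7 ≤ n := by
      by_contra hc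
      have h6 : n ≤ 6 := by omega
      interval_cases n <;> omega
    have h7' : (7 : ℝ) ≤ n := by exact_mod_cast h7
    have h8 : (50 : ℝ) * 100000 ^ D.e ≤ 7 * (D.c7 : ℝ) ^ D.e := by exact_mod_cast D.w7
    have h9 : (50 : ℝ) / 7 ≤ ((D.c7 : ℝ) / 100000) ^ D.e := by
      rw [div_pow, div_le_div_iff₀ (by norm_num) (by positivity)]
      linarith
    have h10 : (n : ℝ) * (50 / 7) ≤ n * ((D.c7 : ℝ) / 100000) ^ D.e :=
      mul_le_mul_of_nonneg_left h9 (by positivity)
    push_cast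
    linarith

lemma orbit_bd (K : ℕ) : ∀ n, (∀ i, i < K → C^[i] n ≠ 1) →
    (C^[K] n : ℝ) ≤ n * W D K n ^ D.e := by
  induction K with
  | zero => intro n _; simp [W]
  | succ K ih =>
    intro n h
    have h0 : n ≠ 1 := by
      have := h 0 (Nat.succ_pos K)
      simpa using this
    have h1 := step_bd D n h0
    have h2 := ih (C n) (fun i hi => by
      have := h (i + 1) (by omega)
      rwa [Function.iterate_succ_apply] at this)
    rw [Function.iterate_succ_apply]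
    show (C^[K] (C n) : ℝ) ≤ n * (w D n * W D K (C n)) ^ D.e
    have h3 : 0 ≤ W D K (C n) ^ D.e := pow_nonneg (W_nonneg _ _ _) _
    calc (C^[K] (C n) : ℝ) ≤ (C n : ℝ) * W D K (C n) ^ D.e := h2
      _ ≤ (n * w D n ^ D.e) * W D K (C n) ^ D.e := mul_le_mul_of_nonneg_right h1 h3
      _ = _ := by rw [mul_pow]; ring

lemma markov (K X : ℕ) (A : Finset ℕ) (t : ℝ) (ht : 0 < t) (hA : A ⊆ range (X + 1))
    (h : ∀ n ∈ A, 1 ≤ t * W D K n) : (A.card : ℝ) ≤ t * ∑ n ∈ range (X + 1), W D K n := by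
  calc (A.card : ℝ) = ∑ n ∈ A, (1 : ℝ) := by simp
    _ ≤ ∑ n ∈ A, t * W D K n := sum_le_sum h
    _ = t * ∑ n ∈ A, W D K n := by rw [mul_sum]
    _ ≤ t * ∑ n ∈ range (X + 1), W D K n := by
      apply mul_le_mul_of_nonneg_left _ ht.le
      exact sum_le_sum_of_subset_of_nonneg hA (fun n _ _ => W_nonneg D K n)

lemma one_le_of_pow (a : ℝ) (e : ℕ) (ha : 0 ≤ a) (h : 1 < a ^ e) : 1 ≤ a := by
  by_contra hc
  push Not at hc
  have : a ^ e ≤ 1 := pow_le_one₀ ha hc.le
  linarith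

/-- the basic step of the two counting arguments -/
lemma weight_large (K n x : ℕ) (y t : ℝ) (hn : n ≤ x) (h1 : ∀ i, C^[i] n ≠ 1)
    (hy : 0 < y) (ht : 0 ≤ t) (hyt : (x : ℝ) ≤ y * t ^ D.e) (h : y < (C^[K] n : ℝ)) :
    1 ≤ t * W D K n := by
  have hW := W_nonneg D K n
  have hWe : 0 ≤ W D K n ^ D.e := pow_nonneg hW _
  have h2 := orbit_bd D K n (fun i _ => h1 i)
  have h3 : (n : ℝ) ≤ x := by exact_mod_cast hn
  have h4 : (n : ℝ) * W D K n ^ D.e ≤ (y * t ^ D.e) * W D K n ^ D.e :=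
    mul_le_mul_of_nonneg_right (h3.trans hyt) hWe
  have h5 : y * 1 < y * (t * W D K n) ^ D.e := by
    rw [mul_one, mul_pow]
    calc y < (C^[K] n : ℝ) := h
      _ ≤ _ := h2
      _ ≤ _ := h4
      _ = _ := by ring
  exact one_le_of_pow _ D.e (mul_nonneg ht hW) (lt_of_mul_lt_mul_left h5 hy.le)

open Classical in
/-- the numbers none of whose iterates is small -/
theorem exceptional (x : ℕ) (hx : 1 ≤ x) :
    (((Icc 1 x).filter (fun n : ℕ => ∀ k : ℕ,
      (n : ℝ) ^ (4 / 5 : ℝ) < (C^[k] n : ℝ))).card : ℝ)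
      ≤ (C0 D10 + 1) * (x : ℝ) ^ (999 / 1000 : ℝ) := by
  have hx0 : (0 : ℝ) ≤ x := by positivity
  have hx1 : (1 : ℝ) ≤ x := by exact_mod_cast hx
  have hxp : (0 : ℝ) < x := by linarith
  set z : ℝ := (x : ℝ) ^ (999 / 1000 : ℝ) with hz
  set E := (Icc 1 x).filter (fun n : ℕ => ∀ k : ℕ, (n : ℝ) ^ (4 / 5 : ℝ) < (C^[k] n : ℝ)) with hE
  have hsplit := Finset.card_filter_add_card_filter_not (s := E) (fun n : ℕ => (n : ℝ) ≤ z)
  have hz0 : 0 ≤ z := by rw [hz]; positivity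
  have hsmall : (((E.filter (fun n : ℕ => (n : ℝ) ≤ z)).card : ℕ) : ℝ) ≤ z := by
    have h1 : E.filter (fun n : ℕ => (n : ℝ) ≤ z) ⊆ Icc 1 ⌊z⌋₊ := by
      intro n hn
      have h2 := (mem_filter.1 hn).2
      have h3 := (mem_filter.1 hn).1
      rw [hE] at h3
      have h4 := (mem_Icc.1 (mem_filter.1 h3).1).1
      rw [mem_Icc]
      exact ⟨h4, Nat.le_floor h2⟩
    have h2 := card_le_card h1
    rw [Nat.card_Icc, Nat.add_sub_cancel] at h2
    calc (((E.filter (fun n : ℕ => (n : ℝ) ≤ z)).card : ℕ) : ℝ) ≤ ((⌊z⌋₊ : ℕ) : ℝ) := by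
          exact_mod_cast h2
      _ ≤ z := Nat.floor_le hz0
  set s : ℝ := (x : ℝ) ^ (1 / 46 : ℝ) with hs
  have hs1 : 1 ≤ s := Real.one_le_rpow hx1 (by norm_num)
  have hs46 : (x : ℝ) = s ^ 46 := by
    rw [hs, ← Real.rpow_natCast, ← Real.rpow_mul hx0]
    norm_num
  have hs45 : s ^ 45 = (x : ℝ) ^ (45 / 46 : ℝ) := by
    rw [hs, ← Real.rpow_natCast, ← Real.rpow_mul hx0]
    norm_num
  obtain ⟨K, _, hK⟩ := total_bd D10 s hs1 x hs46.le
  have hK' : ∑ n ∈ range (x + 1), W D10 K n ≤ C0 D10 * s ^ 45 := hK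
  set t : ℝ := (x : ℝ) ^ (251 / 12500 : ℝ) with ht
  set y : ℝ := (x : ℝ) ^ (999 / 1250 : ℝ) with hy
  have ht0 : 0 < t := Real.rpow_pos_of_pos hxp _
  have hy0 : 0 < y := Real.rpow_pos_of_pos hxp _
  have hyt : (x : ℝ) ≤ y * t ^ 10 := by
    rw [hy, ht, ← Real.rpow_natCast, ← Real.rpow_mul hx0, ← Real.rpow_add hxp]
    norm_num
  have hbig : (((E.filter (fun n : ℕ => ¬ (n : ℝ) ≤ z)).card : ℕ) : ℝ)
      ≤ t * ∑ n ∈ range (x + 1), W D10 K n := by
    apply markov D10 K x _ t ht0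
    · intro n hn
      have h3 := (mem_filter.1 hn).1
      rw [hE] at h3
      have := (mem_Icc.1 (mem_filter.1 h3).1).2
      rw [mem_range]
      omega
    · intro n hn
      have h3 := (mem_filter.1 hn).1
      have h2 := (mem_filter.1 hn).2
      push Not at h2
      rw [hE] at h3
      have hn1 := (mem_Icc.1 (mem_filter.1 h3).1).1
      have hnx := (mem_Icc.1 (mem_filter.1 h3).1).2
      have hk := (mem_filter.1 h3).2
      have hn1' : (1 : ℝ) ≤ n := by exact_mod_cast hn1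
      have h4 : (1 : ℝ) ≤ (n : ℝ) ^ (4 / 5 : ℝ) := Real.one_le_rpow hn1' (by norm_num)
      have h5 : y ≤ (n : ℝ) ^ (4 / 5 : ℝ) := by
        have e : y = z ^ (4 / 5 : ℝ) := by
          rw [hz, hy, ← Real.rpow_mul hx0]
          norm_num
        rw [e]
        exact Real.rpow_le_rpow hz0 h2.le (by norm_num)
      apply weight_large D10 K n x y t hnx _ hy0 ht0.le hyt (lt_of_le_of_lt h5 (hk K))
      intro i he
      have := hk i
      rw [he] at this
      norm_num at this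
      linarith
  have hC := C0_pos D10
  have hexp : t * (C0 D10 * s ^ 45) ≤ C0 D10 * z := by
    have e : t * (C0 D10 * s ^ 45) = C0 D10 * (t * s ^ 45) := by ring
    rw [e]
    apply mul_le_mul_of_nonneg_left _ hC.le
    rw [hs45, ht, hz, ← Real.rpow_add hxp]
    exact Real.rpow_le_rpow_of_exponent_le hx1 (by norm_num)
  have hsr : (((E.filter (fun n : ℕ => (n : ℝ) ≤ z)).card : ℕ) : ℝ)
      + (((E.filter (fun n : ℕ => ¬ (n : ℝ) ≤ z)).card : ℕ) : ℝ) = (E.card : ℝ) := by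
    exact_mod_cast hsplit
  have h6 : t * ∑ n ∈ range (x + 1), W D10 K n ≤ t * (C0 D10 * s ^ 45) :=
    mul_le_mul_of_nonneg_left hK' ht0.le
  linarith

open Classical in
/-- the periodic points up to `x` whose cycle avoids `1` -/
noncomputable def P (x : ℕ) : Finset ℕ :=
  (Icc 1 x).filter (fun n : ℕ => (∃ k : ℕ, 0 < k ∧ C^[k] n = n) ∧ ∀ k : ℕ, C^[k] n ≠ 1)

lemma per_mul (n k : ℕ) (hk : C^[k] n = n) (i : ℕ) : C^[k * i] n = n := by
  induction i with
  | zero => rfl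
  | succ i ih => rw [mul_add, mul_one, Function.iterate_add_apply, hk, ih]

lemma inj_per (K n m : ℕ) (hn : ∃ k : ℕ, 0 < k ∧ C^[k] n = n)
    (hm : ∃ k : ℕ, 0 < k ∧ C^[k] m = m) (h : C^[K] n = C^[K] m) : n = m := by
  obtain ⟨a, ha, hna⟩ := hn
  obtain ⟨b, hb, hmb⟩ := hm
  have e1 : C^[a * b * K] n = n := by rw [mul_assoc]; exact per_mul n a hna _
  have e2 : C^[a * b * K] m = m := by
    rw [mul_comm a b, mul_assoc]; exact per_mul m b hmb _
  have hle : K ≤ a * b * K := by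
    have : 1 ≤ a * b := Nat.mul_pos ha hb
    calc K = 1 * K := (one_mul K).symm
      _ ≤ a * b * K := Nat.mul_le_mul_right K this
  obtain ⟨c, hc⟩ := Nat.exists_eq_add_of_le' hle
  rw [hc, Function.iterate_add_apply] at e1 e2
  rw [← e1, ← e2, h]

theorem card_P (x : ℕ) : ((P x).card : ℝ) ≤ 4 * C0 D3 * (x : ℝ) ^ (19 / 20 : ℝ) := by
  induction x using Nat.strong_induction_on with
  | _ x ih =>
    rcases Nat.eq_zero_or_pos x with h0 | hx
    · subst h0
      have : P 0 = ∅ := by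
        unfold P
        simp
      rw [this]
      have := C0_pos D3
      simp
    · have hx0 : (0 : ℝ) ≤ x := by positivity
      have hx1 : (1 : ℝ) ≤ x := by exact_mod_cast hx
      set s : ℝ := (x : ℝ) ^ (1 / 20 : ℝ) with hs
      have hs1 : 1 ≤ s := Real.one_le_rpow hx1 (by norm_num)
      have hs19 : (x : ℝ) ^ (19 / 20 : ℝ) = s ^ 19 := by
        rw [hs, ← Real.rpow_natCast, ← Real.rpow_mul hx0]
        norm_num
      have hs20 : (x : ℝ) = s ^ 20 := by
        rw [hs, ← Real.rpow_natCast, ← Real.rpow_mul hx0]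
        norm_num
      obtain ⟨K, _, hK0⟩ := total_bd D3 s hs1 x hs20.le
      have hK : ∑ n ∈ range (x + 1), W D3 K n ≤ C0 D3 * s ^ 19 := hK0
      classical
      have hsplit := Finset.card_filter_add_card_filter_not (s := P x)
        (fun n => 8 * C^[K] n ≤ x)
      have hA : ((((P x).filter (fun n => ¬ 8 * C^[K] n ≤ x)).card : ℕ) : ℝ)
          ≤ 2 * (C0 D3 * s ^ 19) := by
        have := markov D3 K x ((P x).filter (fun n => ¬ 8 * C^[K] n ≤ x)) 2 (by norm_num) (by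
          intro n hn
          have h1 := (mem_filter.1 hn).1
          unfold P at h1
          have := (mem_Icc.1 (mem_filter.1 h1).1).2
          rw [mem_range]
          omega) (by
          intro n hn
          have h1 := (mem_filter.1 hn).1
          have h2 := (mem_filter.1 hn).2
          unfold P at h1
          have hn1 := (mem_Icc.1 (mem_filter.1 h1).1).1
          have hnx := (mem_Icc.1 (mem_filter.1 h1).1).2
          have hk := (mem_filter.1 h1).2.2
          have h4 : (x : ℝ) < 8 * (C^[K] n : ℝ) := by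
            have : x < 8 * C^[K] n := by omega
            exact_mod_cast this
          apply weight_large D3 K n x ((x : ℝ) / 8) 2 hnx hk (by positivity) (by norm_num)
          · show (x : ℝ) ≤ (x : ℝ) / 8 * 2 ^ 3
            norm_num
          · linarith)
        refine this.trans ?_
        exact mul_le_mul_of_nonneg_left hK (by norm_num)
      have hB : ((P x).filter (fun n => 8 * C^[K] n ≤ x)).card ≤ (P (x / 8)).card := by
        apply Finset.card_le_card_of_injOn (fun n => C^[K] n)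
        · intro n hn
          have hn' := Finset.mem_coe.1 hn
          have h1 := (mem_filter.1 hn').1
          have h2 := (mem_filter.1 hn').2
          unfold P at h1
          have hn1 := (mem_Icc.1 (mem_filter.1 h1).1).1
          obtain ⟨⟨k, hk0, hk⟩, hk1⟩ := (mem_filter.1 h1).2
          rw [Finset.mem_coe]
          unfold P
          rw [mem_filter, mem_Icc]
          refine ⟨⟨iter_pos K n hn1, ?_⟩, ⟨k, hk0, ?_⟩, ?_⟩
          · rw [Nat.le_div_iff_mul_le (by norm_num), mul_comm]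
            exact h2
          · rw [← Function.iterate_add_apply, add_comm, Function.iterate_add_apply, hk]
          · intro j
            rw [← Function.iterate_add_apply]
            exact hk1 _
        · intro n hn m hm h
          have hn' := (mem_filter.1 (Finset.mem_coe.1 hn)).1
          have hm' := (mem_filter.1 (Finset.mem_coe.1 hm)).1
          unfold P at hn' hm'
          exact inj_per K n m (mem_filter.1 hn').2.1 (mem_filter.1 hm').2.1 h
      have hi := ih (x / 8) (Nat.div_lt_self hx (by norm_num))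
      have h8 : (2 : ℝ) ≤ (8 : ℝ) ^ (19 / 20 : ℝ) := by
        have e1 : (8 : ℝ) = 2 ^ (3 : ℝ) := by norm_num
        rw [e1, ← Real.rpow_mul (by norm_num)]
        calc (2 : ℝ) = 2 ^ (1 : ℝ) := by norm_num
          _ ≤ 2 ^ ((3 : ℝ) * (19 / 20)) :=
            Real.rpow_le_rpow_of_exponent_le (by norm_num) (by norm_num)
      have h9 : ((x / 8 : ℕ) : ℝ) ^ (19 / 20 : ℝ) ≤ s ^ 19 / 2 := by
        have e1 : ((x / 8 : ℕ) : ℝ) ≤ (x : ℝ) / 8 := Nat.cast_div_le
        have e2 : ((x / 8 : ℕ) : ℝ) ^ (19 / 20 : ℝ) ≤ ((x : ℝ) / 8) ^ (19 / 20 : ℝ) :=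
          Real.rpow_le_rpow (by positivity) e1 (by norm_num)
        rw [Real.div_rpow hx0 (by norm_num), hs19] at e2
        refine e2.trans ?_
        exact div_le_div_of_nonneg_left (by positivity) (by norm_num) h8
      have hC := C0_pos D3
      rw [hs19]
      have hBr : ((((P x).filter (fun n => 8 * C^[K] n ≤ x)).card : ℕ) : ℝ)
          ≤ ((P (x / 8)).card : ℝ) := by exact_mod_cast hB
      have hsr : ((((P x).filter (fun n => 8 * C^[K] n ≤ x)).card : ℕ) : ℝ)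
          + ((((P x).filter (fun n => ¬ 8 * C^[K] n ≤ x)).card : ℕ) : ℝ)
          = ((P x).card : ℝ) := by exact_mod_cast hsplit
      have h10 : 4 * C0 D3 * ((x / 8 : ℕ) : ℝ) ^ (19 / 20 : ℝ) ≤ 4 * C0 D3 * (s ^ 19 / 2) :=
        mul_le_mul_of_nonneg_left h9 (by positivity)
      linarith

lemma orbit_one (m : ℕ) : C^[m] 1 = 1 ∨ C^[m] 1 = 2 ∨ C^[m] 1 = 4 ∨ C^[m] 1 = 8 := by
  induction m with
  | zero => left; rfl
  | succ m ih =>
    rw [Function.iterate_succ_apply']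
    have c1 : C 1 = 8 := by decide
    have c2 : C 2 = 1 := by decide
    have c4 : C 4 = 2 := by decide
    have c8 : C 8 = 4 := by decide
    rcases ih with h | h | h | h
    · rw [h, c1]; tauto
    · rw [h, c2]; tauto
    · rw [h, c4]; tauto
    · rw [h, c8]; tauto

open Classical in
theorem periodic (x : ℕ) (hx : 1 ≤ x) :
    (((Icc 1 x).filter (fun n : ℕ => ∃ k : ℕ, 0 < k ∧ C^[k] n = n)).card : ℝ)
      ≤ (4 * C0 D3 + 4) * (x : ℝ) ^ (19 / 20 : ℝ) := by
  have hsub : (Icc 1 x).filter (fun n : ℕ => ∃ k : ℕ, 0 < k ∧ C^[k] n = n)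
      ⊆ P x ∪ {1, 2, 4, 8} := by
    intro n hn
    have h1 := (mem_filter.1 hn).1
    obtain ⟨k, hk0, hk⟩ := (mem_filter.1 hn).2
    rw [mem_union]
    by_cases h : ∀ j : ℕ, C^[j] n ≠ 1
    · left
      unfold P
      rw [mem_filter]
      exact ⟨h1, ⟨k, hk0, hk⟩, h⟩
    · right
      push Not at h
      obtain ⟨j, hj⟩ := h
      have e := per_mul n k hk j
      have hle : j ≤ k * j := Nat.le_mul_of_pos_left j hk0
      obtain ⟨c, hc⟩ := Nat.exists_eq_add_of_le' hle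
      rw [hc, Function.iterate_add_apply, hj] at e
      have := orbit_one c
      rw [e] at this
      simp
      tauto
  have h1 : (((Icc 1 x).filter (fun n : ℕ => ∃ k : ℕ, 0 < k ∧ C^[k] n = n)).card : ℝ)
      ≤ ((P x).card : ℝ) + 4 := by
    have h2 := card_le_card hsub
    have h3 := card_union_le (P x) {1, 2, 4, 8}
    have h4 : ({1, 2, 4, 8} : Finset ℕ).card = 4 := by decide
    rw [h4] at h3
    exact_mod_cast h2.trans h3
  have h2 := card_P x
  have h3 : (1 : ℝ) ≤ (x : ℝ) ^ (19 / 20 : ℝ) :=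
    Real.one_le_rpow (by exact_mod_cast hx) (by norm_num)
  linarith

end KakSp
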