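import Mathlib
import Pool.Agent.Lib.KakSp.Final

/-!
# Every trajectory of the Kakutani `7x+1` map is sparse
-/

open Finset

namespace KakSp

/-- periodic points -/
def Per (m : ℕ) : Prop := ∃ k : ℕ, 0 < k ∧ C^[k] m = m

lemma Per.iterate {m : ℕ} (h : Per m) (i : ℕ) : Per (C^[i] m) := by
  obtain ⟨k, hk0, hk⟩ := h
  refine ⟨k, hk0, ?_⟩
  rw [← Function.iterate_add_apply, add_comm, Function.iterate_add_apply, hk]

lemma Per.of_le {m i j : ℕ} (hij : i ≤ j) (h : Per (C^[i] m)) : Per (C^[j] m) := by
  obtain ⟨c, rfl⟩ := Nat.exists_eq_add_of_le' hij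
  rw [Function.iterate_add_apply]
  exact h.iterate c

lemma it2 (a b n : ℕ) : C^[a] (C^[b] n) = C^[a + b] n :=
  (Function.iterate_add_apply C a b n).symm

lemma it3 (a b c n : ℕ) : C^[a] (C^[b] (C^[c] n)) = C^[a + b + c] n := by
  rw [Function.iterate_add_apply, Function.iterate_add_apply]

lemma per_one : Per 1 := ⟨4, by norm_num, by decide⟩

open Classical in
/-- the non-periodic values `≤ x` of the trajectory of `n` -/
noncomputable def Q (n x : ℕ) : Finset ℕ :=
  (Icc 1 x).filter (fun m : ℕ => (∃ k : ℕ, C^[k] n = m) ∧ ¬ Per m)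

lemma inj_traj (n K m m' : ℕ) (hm : ∃ k : ℕ, C^[k] n = m) (hm' : ∃ k : ℕ, C^[k] n = m')
    (hK : ¬ Per (C^[K] m)) (h : C^[K] m = C^[K] m') : m = m' := by
  obtain ⟨i, rfl⟩ := hm
  obtain ⟨j, rfl⟩ := hm'
  rcases lt_trichotomy i j with hij | hij | hij
  · exfalso
    apply hK
    obtain ⟨c, hc⟩ := Nat.exists_eq_add_of_lt hij
    refine ⟨c + 1, Nat.succ_pos c, ?_⟩
    have e : C^[c + 1] (C^[K] (C^[i] n)) = C^[K] (C^[j] n) := by
      rw [it3, it2, hc, show c + 1 + K + i = K + (i + c + 1) by omega]
    rw [e, ← h]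
  · rw [hij]
  · exfalso
    apply hK
    obtain ⟨c, hc⟩ := Nat.exists_eq_add_of_lt hij
    refine ⟨c + 1, Nat.succ_pos c, ?_⟩
    rw [h]
    have e : C^[c + 1] (C^[K] (C^[j] n)) = C^[K] (C^[i] n) := by
      rw [it3, it2, hc, show c + 1 + K + j = K + (j + c + 1) by omega]
    rw [e, h]

open Classical in
/-- at most `K` non-periodic values of a trajectory become periodic within `K` steps -/
lemma card_entry (n K : ℕ) (A : Finset ℕ)
    (hA : ∀ m ∈ A, (∃ k : ℕ, C^[k] n = m) ∧ ¬ Per m ∧ Per (C^[K] m)) : A.card ≤ K := by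
  have hex : ∀ m ∈ A, ∃ t, Per (C^[t] m) := fun m hm => ⟨K, (hA m hm).2.2⟩
  have h1 : A.card ≤ (Icc 1 K).card := by
    apply Finset.card_le_card_of_injOn
      (fun m => if h : ∃ t, Per (C^[t] m) then Nat.find h else 0)
    · intro m hm
      have hm' := Finset.mem_coe.1 hm
      have h := hex m hm'
      rw [Finset.mem_coe]
      show (if h : ∃ t, Per (C^[t] m) then Nat.find h else 0) ∈ Icc 1 K
      rw [dif_pos h, mem_Icc]
      constructor
      · rw [Nat.one_le_iff_ne_zero]
        intro h0
        have := Nat.find_spec h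
        rw [h0] at this
        exact (hA m hm').2.1 this
      · exact Nat.find_min' h (hA m hm').2.2
    · intro m hm m' hm' he
      have hmA := Finset.mem_coe.1 hm
      have hmA' := Finset.mem_coe.1 hm'
      have h := hex m hmA
      have h' := hex m' hmA'
      have he' : Nat.find h = Nat.find h' := by
        have e : (if h : ∃ t, Per (C^[t] m) then Nat.find h else 0)
          = (if h : ∃ t, Per (C^[t] m') then Nat.find h else 0) := he
        rwa [dif_pos h, dif_pos h'] at e
      have key : ∀ a b : ℕ, (∃ i j : ℕ, i < j ∧ C^[i] n = a ∧ C^[j] n = b) →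
          ∀ (ha : ∃ t, Per (C^[t] a)) (hb : ∃ t, Per (C^[t] b)), ¬ Per b →
          Nat.find ha ≠ Nat.find hb := by
        rintro a b ⟨i, j, hij, rfl, rfl⟩ ha hb hnb heq
        obtain ⟨c, hc⟩ := Nat.exists_eq_add_of_lt hij
        have hb1 : Nat.find hb ≠ 0 := by
          intro h0
          have := Nat.find_spec hb
          rw [h0] at this
          exact hnb this
        have hspec := Nat.find_spec ha
        rw [heq] at hspec
        -- `C^[t] a` is periodic with `t = find hb`; then `C^[t - (c+1)] b` or `b` is periodic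
        have ea : ∀ t, C^[c + 1 + t] (C^[i] n) = C^[t] (C^[j] n) := by
          intro t
          rw [it2, it2, hc, show c + 1 + t + i = t + (i + c + 1) by omega]
        rcases Nat.lt_or_ge (Nat.find hb) (c + 1) with hlt | hge
        · apply hnb
          have := ea 0
          have h2 : Per (C^[c + 1 + 0] (C^[i] n)) := Per.of_le (by omega) hspec
          rw [this] at h2
          exact h2
        · obtain ⟨u, hu⟩ := Nat.exists_eq_add_of_le hge
          rw [hu, ea u] at hspec
          have := Nat.find_min' hb hspec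
          omega
      obtain ⟨i, hi⟩ := (hA m hmA).1
      obtain ⟨j, hj⟩ := (hA m' hmA').1
      rcases lt_trichotomy i j with hij | hij | hij
      · exact absurd he' (key m m' ⟨i, j, hij, hi, hj⟩ h h' (hA m' hmA').2.1)
      · rw [← hi, ← hj, hij]
      · exact absurd he'.symm (key m' m ⟨j, i, hij, hj, hi⟩ h' h (hA m hmA).2.1)
  rw [Nat.card_Icc, Nat.add_sub_cancel] at h1
  exact h1

theorem card_Q (n : ℕ) (x : ℕ) :
    ((Q n x).card : ℝ) ≤ (4 * C0 D3 + 60) * (x : ℝ) ^ (19 / 20 : ℝ) := by
  induction x using Nat.strong_induction_on with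
  | _ x ih =>
    have hC := C0_pos D3
    rcases Nat.eq_zero_or_pos x with h0 | hx
    · subst h0
      have : Q n 0 = ∅ := by
        unfold Q
        simp
      rw [this, card_empty, Nat.cast_zero]
      positivity
    · have hx0 : (0 : ℝ) ≤ x := by positivity
      have hx1 : (1 : ℝ) ≤ x := by exact_mod_cast hx
      set s : ℝ := (x : ℝ) ^ (1 / 20 : ℝ) with hs
      have hs1 : 1 ≤ s := Real.one_le_rpow hx1 (by norm_num)
      have hs19 : (x : ℝ) ^ (19 / 20 : ℝ) = s ^ 19 := by
        rw [hs, ← Real.rpow_natCast, ← Real.rpow_mul hx0]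
        norm_num
      have hs20 : (x : ℝ) = s ^ 20 := by
        rw [hs, ← Real.rpow_natCast, ← Real.rpow_mul hx0]
        norm_num
      obtain ⟨K, hKs, hK0⟩ := total_bd D3 s hs1 x hs20.le
      have hK : ∑ n ∈ range (x + 1), W D3 K n ≤ C0 D3 * s ^ 19 := hK0
      have hKr : (K : ℝ) ≤ 30 * s ^ 19 := by
        have hl : 1 + 1 / 30 ≤ (lam D3)⁻¹ := by
          have : lam D3 = 96705 / 100000 := by
            unfold lam
            have : D3.L = 96705 := rfl
            rw [this]
            norm_num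
          rw [this]
          norm_num
        have h1 : (1 : ℝ) + K * (1 / 30) ≤ (1 + 1 / 30) ^ K :=
          one_add_mul_le_pow (by norm_num) K
        have h2 : ((1 : ℝ) + 1 / 30) ^ K ≤ ((lam D3)⁻¹) ^ K :=
          pow_le_pow_left₀ (by norm_num) hl K
        have h3 : s ≤ s ^ 19 := le_self_pow₀ hs1 (by norm_num)
        linarith
      classical
      have hsplit0 := Finset.card_filter_add_card_filter_not (s := Q n x)
        (fun m => Per (C^[K] m))
      have hE : ((Q n x).filter (fun m => Per (C^[K] m))).card ≤ K := by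
        apply card_entry n K
        intro m hm
        obtain ⟨h1, h2⟩ := mem_filter.1 hm
        unfold Q at h1
        have h3 := (mem_filter.1 h1).2
        exact ⟨h3.1, h3.2, h2⟩
      set R := (Q n x).filter (fun m => ¬ Per (C^[K] m)) with hR
      have hRm : ∀ m ∈ R, (1 ≤ m ∧ m ≤ x) ∧ (∃ k : ℕ, C^[k] n = m) ∧ ¬ Per m ∧
          ¬ Per (C^[K] m) := by
        intro m hm
        rw [hR] at hm
        obtain ⟨h1, h2⟩ := mem_filter.1 hm
        unfold Q at h1
        obtain ⟨h3, h4⟩ := mem_filter.1 h1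
        exact ⟨mem_Icc.1 h3, h4.1, h4.2, h2⟩
      have hsplit := Finset.card_filter_add_card_filter_not (s := R)
        (fun m => 8 * C^[K] m ≤ x)
      have hA : (((R.filter (fun m => ¬ 8 * C^[K] m ≤ x)).card : ℕ) : ℝ)
          ≤ 2 * (C0 D3 * s ^ 19) := by
        have := markov D3 K x (R.filter (fun m => ¬ 8 * C^[K] m ≤ x)) 2 (by norm_num) (by
          intro m hm
          have := (hRm m (mem_filter.1 hm).1).1.2
          rw [mem_range]
          omega) (by
          intro m hm
          have h1 := hRm m (mem_filter.1 hm).1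
          have h2 := (mem_filter.1 hm).2
          have hW := W_nonneg D3 K m
          have h3 := orbit_bd D3 K m (by
            intro i hi he
            apply h1.2.2.2
            apply Per.of_le hi.le
            rw [he]
            exact per_one)
          have h4 : (x : ℝ) < 8 * (C^[K] m : ℝ) := by
            have : x < 8 * C^[K] m := by omega
            exact_mod_cast this
          have h5 : (m : ℝ) ≤ x := by exact_mod_cast h1.1.2
          have h6 : 0 ≤ W D3 K m ^ 3 := pow_nonneg hW 3
          have h7 : (C^[K] m : ℝ) ≤ x * W D3 K m ^ 3 :=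
            h3.trans (mul_le_mul_of_nonneg_right h5 h6)
          have hxp : (0 : ℝ) < x := by linarith
          have h8 : (x : ℝ) * 1 < x * (2 * W D3 K m) ^ 3 := by
            have e : (x : ℝ) * (2 * W D3 K m) ^ 3 = 8 * (x * W D3 K m ^ 3) := by ring
            rw [e]
            linarith
          exact one_le_of_pow _ 3 (mul_nonneg (by norm_num) hW)
            (lt_of_mul_lt_mul_left h8 hxp.le))
        refine this.trans ?_
        exact mul_le_mul_of_nonneg_left hK (by norm_num)
      have hB : (R.filter (fun m => 8 * C^[K] m ≤ x)).card ≤ (Q n (x / 8)).card := by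
        apply Finset.card_le_card_of_injOn (fun m => C^[K] m)
        · intro m hm
          have hm' := Finset.mem_coe.1 hm
          have h1 := hRm m (mem_filter.1 hm').1
          have h2 := (mem_filter.1 hm').2
          obtain ⟨k, hk⟩ := h1.2.1
          rw [Finset.mem_coe]
          unfold Q
          rw [mem_filter, mem_Icc]
          refine ⟨⟨iter_pos K m h1.1.1, ?_⟩, ⟨K + k, ?_⟩, h1.2.2.2⟩
          · rw [Nat.le_div_iff_mul_le (by norm_num), mul_comm]
            exact h2
          · rw [Function.iterate_add_apply, hk]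
        · intro m hm m' hm' h
          have h1 := hRm m (mem_filter.1 (Finset.mem_coe.1 hm)).1
          have h2 := hRm m' (mem_filter.1 (Finset.mem_coe.1 hm')).1
          exact inj_traj n K m m' h1.2.1 h2.2.1 h1.2.2.2 h
      have hi := ih (x / 8) (Nat.div_lt_self hx (by norm_num))
      have h8 : (2 : ℝ) ≤ (8 : ℝ) ^ (19 / 20 : ℝ) := by
        have e1 : (8 : ℝ) = 2 ^ (3 : ℝ) := by norm_num
        rw [e1, ← Real.rpow_mul (by norm_num)]
        calc (2 : ℝ) = 2 ^ (1 : ℝ) := by norm_num
          _ ≤ 2 ^ ((3 : ℝ) * (19 / 20)) :=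
            Real.rpow_le_rpow_of_exponent_le (by norm_num) (by norm_num)
      have h9 : ((x / 8 : ℕ) : ℝ) ^ (19 / 20 : ℝ) ≤ s ^ 19 / 2 := by
        have e1 : ((x / 8 : ℕ) : ℝ) ≤ (x : ℝ) / 8 := Nat.cast_div_le
        have e2 : ((x / 8 : ℕ) : ℝ) ^ (19 / 20 : ℝ) ≤ ((x : ℝ) / 8) ^ (19 / 20 : ℝ) :=
          Real.rpow_le_rpow (by positivity) e1 (by norm_num)
        rw [Real.div_rpow hx0 (by norm_num), hs19] at e2
        refine e2.trans ?_
        exact div_le_div_of_nonneg_left (by positivity) (by norm_num) h8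
      rw [hs19]
      have hBr : (((R.filter (fun m => 8 * C^[K] m ≤ x)).card : ℕ) : ℝ)
          ≤ ((Q n (x / 8)).card : ℝ) := by exact_mod_cast hB
      have hsr : (((R.filter (fun m => 8 * C^[K] m ≤ x)).card : ℕ) : ℝ)
          + (((R.filter (fun m => ¬ 8 * C^[K] m ≤ x)).card : ℕ) : ℝ)
          = (R.card : ℝ) := by exact_mod_cast hsplit
      have hsr0 : ((((Q n x).filter (fun m => Per (C^[K] m))).card : ℕ) : ℝ) + (R.card : ℝ)
          = ((Q n x).card : ℝ) := by exact_mod_cast hsplit0
      have hEr : ((((Q n x).filter (fun m => Per (C^[K] m))).card : ℕ) : ℝ) ≤ K := by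
        exact_mod_cast hE
      have h10 : (4 * C0 D3 + 60) * ((x / 8 : ℕ) : ℝ) ^ (19 / 20 : ℝ)
          ≤ (4 * C0 D3 + 60) * (s ^ 19 / 2) :=
        mul_le_mul_of_nonneg_left h9 (by positivity)
      linarith

open Classical in
/-- every trajectory is sparse -/
theorem trajectory (n x : ℕ) (hx : 1 ≤ x) :
    (((Icc 1 x).filter (fun m : ℕ => ∃ k : ℕ, C^[k] n = m)).card : ℝ)
      ≤ (8 * C0 D3 + 64) * (x : ℝ) ^ (19 / 20 : ℝ) := by
  have hsub : (Icc 1 x).filter (fun m : ℕ => ∃ k : ℕ, C^[k] n = m)
      ⊆ Q n x ∪ (Icc 1 x).filter (fun n : ℕ => ∃ k : ℕ, 0 < k ∧ C^[k] n = n) := by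
    intro m hm
    obtain ⟨h1, h2⟩ := mem_filter.1 hm
    rw [mem_union]
    by_cases h : Per m
    · right
      exact mem_filter.2 ⟨h1, h⟩
    · left
      unfold Q
      rw [mem_filter]
      exact ⟨h1, h2, h⟩
  have h1 := card_Q n x
  have h2 := periodic x hx
  have h3 := (card_le_card hsub).trans (card_union_le _ _)
  have h4 : (((Icc 1 x).filter (fun m : ℕ => ∃ k : ℕ, C^[k] n = m)).card : ℝ)
      ≤ ((Q n x).card : ℝ)
        + (((Icc 1 x).filter (fun n : ℕ => ∃ k : ℕ, 0 < k ∧ C^[k] n = n)).card : ℝ) := by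
    exact_mod_cast h3
  linarith

end KakSp
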