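import Mathlib
import Pool.Agent.Lib.KakSp.Traj

/-!
# Invariant sets on which the map is injective; the time of descent
-/

open Finset

namespace KakSp

open Classical in
/-- the elements `≤ x` of `A` whose trajectory avoids `1` -/
noncomputable def PA (A : Set ℕ) (x : ℕ) : Finset ℕ :=
  (Icc 1 x).filter (fun n : ℕ => n ∈ A ∧ ∀ k : ℕ, C^[k] n ≠ 1)

theorem card_PA (A : Set ℕ) (hA : Set.MapsTo C A A) (hi : Set.InjOn C A) (x : ℕ) :
    ((PA A x).card : ℝ) ≤ 4 * C0 D3 * (x : ℝ) ^ (19 / 20 : ℝ) := by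
  induction x using Nat.strong_induction_on with
  | _ x ih =>
    rcases Nat.eq_zero_or_pos x with h0 | hx
    · subst h0
      have : PA A 0 = ∅ := by
        unfold PA
        simp
      rw [this]
      have := C0_pos D3
      simp
    · have hx0 : (0 : ℝ) ≤ x := by positivity
      have hx1 : (1 : ℝ) ≤ x := by exact_mod_cast hx
      set s : ℝ := (x : ℝ) ^ (1 / 20 : ℝ) with hs
      have hs1 : 1 ≤ s := Real.one_le_rpow hx1 (by norm_num)
      have hs19 : (x : ℝ) ^ (19 / 20 : ℝ) = s ^ 19 := by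
        rw [hs, ← Real.rpow_natCast, ← Real.rpow_mul hx0]
        norm_num
      have hs20 : (x : ℝ) = s ^ 20 := by
        rw [hs, ← Real.rpow_natCast, ← Real.rpow_mul hx0]
        norm_num
      obtain ⟨K, _, hK0⟩ := total_bd D3 s hs1 x hs20.le
      have hK : ∑ n ∈ range (x + 1), W D3 K n ≤ C0 D3 * s ^ 19 := hK0
      classical
      have hmem : ∀ n, n ∈ PA A x → (1 ≤ n ∧ n ≤ x) ∧ n ∈ A ∧ ∀ k : ℕ, C^[k] n ≠ 1 := by
        intro n hn
        unfold PA at hn
        obtain ⟨h1, h2⟩ := mem_filter.1 hn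
        exact ⟨mem_Icc.1 h1, h2⟩
      have hsplit := Finset.card_filter_add_card_filter_not (s := PA A x)
        (fun n => 8 * C^[K] n ≤ x)
      have hAb : ((((PA A x).filter (fun n => ¬ 8 * C^[K] n ≤ x)).card : ℕ) : ℝ)
          ≤ 2 * (C0 D3 * s ^ 19) := by
        have := markov D3 K x ((PA A x).filter (fun n => ¬ 8 * C^[K] n ≤ x)) 2 (by norm_num) (by
          intro n hn
          have := (hmem n (mem_filter.1 hn).1).1.2
          rw [mem_range]
          omega) (by
          intro n hn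
          have h1 := hmem n (mem_filter.1 hn).1
          have h2 := (mem_filter.1 hn).2
          have h4 : (x : ℝ) < 8 * (C^[K] n : ℝ) := by
            have : x < 8 * C^[K] n := by omega
            exact_mod_cast this
          apply weight_large D3 K n x ((x : ℝ) / 8) 2 h1.1.2 h1.2.2 (by positivity) (by norm_num)
          · show (x : ℝ) ≤ (x : ℝ) / 8 * 2 ^ 3
            norm_num
          · linarith)
        refine this.trans ?_
        exact mul_le_mul_of_nonneg_left hK (by norm_num)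
      have hB : ((PA A x).filter (fun n => 8 * C^[K] n ≤ x)).card ≤ (PA A (x / 8)).card := by
        apply Finset.card_le_card_of_injOn (fun n => C^[K] n)
        · intro n hn
          have hn' := Finset.mem_coe.1 hn
          have h1 := hmem n (mem_filter.1 hn').1
          have h2 := (mem_filter.1 hn').2
          rw [Finset.mem_coe]
          unfold PA
          rw [mem_filter, mem_Icc]
          refine ⟨⟨iter_pos K n h1.1.1, ?_⟩, hA.iterate K h1.2.1, ?_⟩
          · rw [Nat.le_div_iff_mul_le (by norm_num), mul_comm]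
            exact h2
          · intro j
            rw [← Function.iterate_add_apply]
            exact h1.2.2 _
        · intro n hn m hm h
          have hn' := hmem n (mem_filter.1 (Finset.mem_coe.1 hn)).1
          have hm' := hmem m (mem_filter.1 (Finset.mem_coe.1 hm)).1
          exact hi.iterate hA K hn'.2.1 hm'.2.1 h
      have hi' := ih (x / 8) (Nat.div_lt_self hx (by norm_num))
      have h8 : (2 : ℝ) ≤ (8 : ℝ) ^ (19 / 20 : ℝ) := by
        have e1 : (8 : ℝ) = 2 ^ (3 : ℝ) := by norm_num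
        rw [e1, ← Real.rpow_mul (by norm_num)]
        calc (2 : ℝ) = 2 ^ (1 : ℝ) := by norm_num
          _ ≤ 2 ^ ((3 : ℝ) * (19 / 20)) :=
            Real.rpow_le_rpow_of_exponent_le (by norm_num) (by norm_num)
      have h9 : ((x / 8 : ℕ) : ℝ) ^ (19 / 20 : ℝ) ≤ s ^ 19 / 2 := by
        have e1 : ((x / 8 : ℕ) : ℝ) ≤ (x : ℝ) / 8 := Nat.cast_div_le
        have e2 : ((x / 8 : ℕ) : ℝ) ^ (19 / 20 : ℝ) ≤ ((x : ℝ) / 8) ^ (19 / 20 : ℝ) :=
          Real.rpow_le_rpow (by positivity) e1 (by norm_num)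
        rw [Real.div_rpow hx0 (by norm_num), hs19] at e2
        refine e2.trans ?_
        exact div_le_div_of_nonneg_left (by positivity) (by norm_num) h8
      have hC := C0_pos D3
      rw [hs19]
      have hBr : ((((PA A x).filter (fun n => 8 * C^[K] n ≤ x)).card : ℕ) : ℝ)
          ≤ ((PA A (x / 8)).card : ℝ) := by exact_mod_cast hB
      have hsr : ((((PA A x).filter (fun n => 8 * C^[K] n ≤ x)).card : ℕ) : ℝ)
          + ((((PA A x).filter (fun n => ¬ 8 * C^[K] n ≤ x)).card : ℕ) : ℝ)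
          = ((PA A x).card : ℝ) := by exact_mod_cast hsplit
      have h10 : 4 * C0 D3 * ((x / 8 : ℕ) : ℝ) ^ (19 / 20 : ℝ) ≤ 4 * C0 D3 * (s ^ 19 / 2) :=
        mul_le_mul_of_nonneg_left h9 (by positivity)
      linarith

/-- elements of `A` whose trajectory meets `1` are `1, 2, 4, 8` -/
lemma reach_one (A : Set ℕ) (hA : Set.MapsTo C A A) (hi : Set.InjOn C A) (k : ℕ) :
    ∀ n, n ∈ A → C^[k] n = 1 → n = 1 ∨ n = 2 ∨ n = 4 ∨ n = 8 := by
  have c1 : C 1 = 8 := by decide
  have c2 : C 2 = 1 := by decide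
  have c4 : C 4 = 2 := by decide
  have c8 : C 8 = 4 := by decide
  induction k with
  | zero =>
    intro n _ h
    left
    exact h
  | succ k ih =>
    intro n hn h
    have h1 : 1 ∈ A := by
      have := hA.iterate (k + 1) hn
      rwa [h] at this
    have h8 : 8 ∈ A := by have := hA h1; rwa [c1] at this
    have h4 : 4 ∈ A := by have := hA h8; rwa [c8] at this
    have h2 : 2 ∈ A := by have := hA h4; rwa [c4] at this
    rw [Function.iterate_succ_apply] at h
    rcases ih (C n) (hA hn) h with h' | h' | h' | h'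
    · have := hi hn h2 (by rw [h', c2]); tauto
    · have := hi hn h4 (by rw [h', c4]); tauto
    · have := hi hn h8 (by rw [h', c8]); tauto
    · have := hi hn h1 (by rw [h', c1]); tauto

open Classical in
theorem invariant (A : Set ℕ) (hA : Set.MapsTo C A A) (hi : Set.InjOn C A) (x : ℕ) (hx : 1 ≤ x) :
    (((Icc 1 x).filter (fun n : ℕ => n ∈ A)).card : ℝ)
      ≤ (4 * C0 D3 + 4) * (x : ℝ) ^ (19 / 20 : ℝ) := by
  have hsub : (Icc 1 x).filter (fun n : ℕ => n ∈ A) ⊆ PA A x ∪ {1, 2, 4, 8} := by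
    intro n hn
    obtain ⟨h1, h2⟩ := mem_filter.1 hn
    rw [mem_union]
    by_cases h : ∀ j : ℕ, C^[j] n ≠ 1
    · left
      unfold PA
      rw [mem_filter]
      exact ⟨h1, h2, h⟩
    · right
      push Not at h
      obtain ⟨j, hj⟩ := h
      have := reach_one A hA hi j n h2 hj
      simp
      tauto
  have h1 : (((Icc 1 x).filter (fun n : ℕ => n ∈ A)).card : ℝ) ≤ ((PA A x).card : ℝ) + 4 := by
    have h2 := card_le_card hsub
    have h3 := card_union_le (PA A x) {1, 2, 4, 8}
    have h4 : ({1, 2, 4, 8} : Finset ℕ).card = 4 := by decide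
    rw [h4] at h3
    exact_mod_cast h2.trans h3
  have h2 := card_PA A hA hi x
  have h3 : (1 : ℝ) ≤ (x : ℝ) ^ (19 / 20 : ℝ) :=
    Real.one_le_rpow (by exact_mod_cast hx) (by norm_num)
  linarith

open Classical in
/-- the numbers which do not descend fast -/
theorem exceptional_time (x : ℕ) (hx : 1 ≤ x) :
    (((Icc 1 x).filter (fun n : ℕ => ∀ k : ℕ, (k : ℝ) ≤ 3 / 2 * Real.log x →
      (n : ℝ) ^ (4 / 5 : ℝ) < (C^[k] n : ℝ))).card : ℝ)
      ≤ (C0 D10 + 1) * (x : ℝ) ^ (999 / 1000 : ℝ) := by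
  have hx0 : (0 : ℝ) ≤ x := by positivity
  have hx1 : (1 : ℝ) ≤ x := by exact_mod_cast hx
  have hxp : (0 : ℝ) < x := by linarith
  set z : ℝ := (x : ℝ) ^ (999 / 1000 : ℝ) with hz
  set E := (Icc 1 x).filter (fun n : ℕ => ∀ k : ℕ, (k : ℝ) ≤ 3 / 2 * Real.log x →
    (n : ℝ) ^ (4 / 5 : ℝ) < (C^[k] n : ℝ)) with hE
  have hsplit := Finset.card_filter_add_card_filter_not (s := E) (fun n : ℕ => (n : ℝ) ≤ z)
  have hz0 : 0 ≤ z := by rw [hz]; positivity
  have hsmall : (((E.filter (fun n : ℕ => (n : ℝ) ≤ z)).card : ℕ) : ℝ) ≤ z := by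
    have h1 : E.filter (fun n : ℕ => (n : ℝ) ≤ z) ⊆ Icc 1 ⌊z⌋₊ := by
      intro n hn
      have h2 := (mem_filter.1 hn).2
      have h3 := (mem_filter.1 hn).1
      rw [hE] at h3
      have h4 := (mem_Icc.1 (mem_filter.1 h3).1).1
      rw [mem_Icc]
      exact ⟨h4, Nat.le_floor h2⟩
    have h2 := card_le_card h1
    rw [Nat.card_Icc, Nat.add_sub_cancel] at h2
    calc (((E.filter (fun n : ℕ => (n : ℝ) ≤ z)).card : ℕ) : ℝ) ≤ ((⌊z⌋₊ : ℕ) : ℝ) := by
          exact_mod_cast h2
      _ ≤ z := Nat.floor_le hz0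
  set s : ℝ := (x : ℝ) ^ (1 / 46 : ℝ) with hs
  have hs1 : 1 ≤ s := Real.one_le_rpow hx1 (by norm_num)
  have hs46 : (x : ℝ) = s ^ 46 := by
    rw [hs, ← Real.rpow_natCast, ← Real.rpow_mul hx0]
    norm_num
  have hs45 : s ^ 45 = (x : ℝ) ^ (45 / 46 : ℝ) := by
    rw [hs, ← Real.rpow_natCast, ← Real.rpow_mul hx0]
    norm_num
  obtain ⟨K, hKs, hK⟩ := total_bd D10 s hs1 x hs46.le
  have hK' : ∑ n ∈ range (x + 1), W D10 K n ≤ C0 D10 * s ^ 45 := hK
  have hKlog : (K : ℝ) ≤ 3 / 2 * Real.log x := by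
    have hl : lam D10 = 98430 / 100000 := by
      unfold lam
      have : D10.L = 98430 := rfl
      rw [this]
      norm_num
    have hl0 : (0 : ℝ) < (lam D10)⁻¹ := by rw [hl]; norm_num
    have h1 := Real.log_le_log (by positivity) hKs
    rw [Real.log_pow, hs, Real.log_rpow hxp] at h1
    have h2 : (1 : ℝ) / 69 ≤ Real.log (lam D10)⁻¹ := by
      have := Real.one_sub_inv_le_log_of_pos hl0
      rw [inv_inv, hl] at this
      rw [hl]
      norm_num at this ⊢
      linarith
    have h4 : (K : ℝ) * (1 / 69) ≤ K * Real.log (lam D10)⁻¹ :=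
      mul_le_mul_of_nonneg_left h2 (by positivity)
    linarith
  set t : ℝ := (x : ℝ) ^ (251 / 12500 : ℝ) with ht
  set y : ℝ := (x : ℝ) ^ (999 / 1250 : ℝ) with hy
  have ht0 : 0 < t := Real.rpow_pos_of_pos hxp _
  have hy0 : 0 < y := Real.rpow_pos_of_pos hxp _
  have hyt : (x : ℝ) ≤ y * t ^ 10 := by
    rw [hy, ht, ← Real.rpow_natCast, ← Real.rpow_mul hx0, ← Real.rpow_add hxp]
    norm_num
  have hbig : (((E.filter (fun n : ℕ => ¬ (n : ℝ) ≤ z)).card : ℕ) : ℝ)
      ≤ t * ∑ n ∈ range (x + 1), W D10 K n := by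
    apply markov D10 K x _ t ht0
    · intro n hn
      have h3 := (mem_filter.1 hn).1
      rw [hE] at h3
      have := (mem_Icc.1 (mem_filter.1 h3).1).2
      rw [mem_range]
      omega
    · intro n hn
      have h3 := (mem_filter.1 hn).1
      have h2 := (mem_filter.1 hn).2
      push Not at h2
      rw [hE] at h3
      have hn1 := (mem_Icc.1 (mem_filter.1 h3).1).1
      have hnx := (mem_Icc.1 (mem_filter.1 h3).1).2
      have hk := (mem_filter.1 h3).2
      have hn1' : (1 : ℝ) ≤ n := by exact_mod_cast hn1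
      have h4 : (1 : ℝ) ≤ (n : ℝ) ^ (4 / 5 : ℝ) := Real.one_le_rpow hn1' (by norm_num)
      have h5 : y ≤ (n : ℝ) ^ (4 / 5 : ℝ) := by
        have e : y = z ^ (4 / 5 : ℝ) := by
          rw [hz, hy, ← Real.rpow_mul hx0]
          norm_num
        rw [e]
        exact Real.rpow_le_rpow hz0 h2.le (by norm_num)
      have hW := W_nonneg D10 K n
      have h6 := orbit_bd D10 K n (by
        intro i hiK he
        have hik : (i : ℝ) ≤ 3 / 2 * Real.log x := by
          have : (i : ℝ) ≤ K := by exact_mod_cast hiK.le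
          linarith
        have := hk i hik
        rw [he] at this
        norm_num at this
        linarith)
      have h7 : y < (C^[K] n : ℝ) := lt_of_le_of_lt h5 (hk K hKlog)
      have h8 : (n : ℝ) ≤ x := by exact_mod_cast hnx
      have hWe : 0 ≤ W D10 K n ^ 10 := pow_nonneg hW _
      have h9 : (n : ℝ) * W D10 K n ^ 10 ≤ (y * t ^ 10) * W D10 K n ^ 10 :=
        mul_le_mul_of_nonneg_right (h8.trans hyt) hWe
      have h10 : y * 1 < y * (t * W D10 K n) ^ 10 := by
        rw [mul_one, mul_pow]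
        calc y < (C^[K] n : ℝ) := h7
          _ ≤ _ := h6
          _ ≤ _ := h9
          _ = _ := by ring
      exact one_le_of_pow _ 10 (mul_nonneg ht0.le hW) (lt_of_mul_lt_mul_left h10 hy0.le)
  have hC := C0_pos D10
  have hexp : t * (C0 D10 * s ^ 45) ≤ C0 D10 * z := by
    have e : t * (C0 D10 * s ^ 45) = C0 D10 * (t * s ^ 45) := by ring
    rw [e]
    apply mul_le_mul_of_nonneg_left _ hC.le
    rw [hs45, ht, hz, ← Real.rpow_add hxp]
    exact Real.rpow_le_rpow_of_exponent_le hx1 (by norm_num)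
  have hsr : (((E.filter (fun n : ℕ => (n : ℝ) ≤ z)).card : ℕ) : ℝ)
      + (((E.filter (fun n : ℕ => ¬ (n : ℝ) ≤ z)).card : ℕ) : ℝ) = (E.card : ℝ) := by
    exact_mod_cast hsplit
  have h6 : t * ∑ n ∈ range (x + 1), W D10 K n ≤ t * (C0 D10 * s ^ 45) :=
    mul_le_mul_of_nonneg_left hK' ht0.le
  linarith

end KakSp
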