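import Mathlib
import Pool.Agent.Lib.KakSp.Strong

/-!
# The stopping time for every constant factor; the components of the graph of the map
-/

open Finset

namespace KakSp

open Classical in
/-- the numbers `≤ x` all of whose iterates are at least `n / L^3`, and whose trajectory avoids `1` -/
noncomputable def PS (L : ℝ) (x : ℕ) : Finset ℕ :=
  (Icc 1 x).filter (fun n : ℕ => (∀ k : ℕ, (n : ℝ) ≤ L ^ 3 * (C^[k] n : ℝ)) ∧
    ∀ k : ℕ, C^[k] n ≠ 1)

theorem card_PS (L : ℝ) (hL : 1 ≤ L) (x : ℕ) :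
    ((PS L x).card : ℝ) ≤ 4 * C0 D3 * L * (x : ℝ) ^ (19 / 20 : ℝ) := by
  induction x using Nat.strong_induction_on with
  | _ x ih =>
    rcases Nat.eq_zero_or_pos x with h0 | hx
    · subst h0
      have : PS L 0 = ∅ := by
        unfold PS
        simp
      rw [this]
      have := C0_pos D3
      simp
    · have hx0 : (0 : ℝ) ≤ x := by positivity
      have hx1 : (1 : ℝ) ≤ x := by exact_mod_cast hx
      have hL0 : 0 < L := by linarith
      set s : ℝ := (x : ℝ) ^ (1 / 20 : ℝ) with hs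
      have hs1 : 1 ≤ s := Real.one_le_rpow hx1 (by norm_num)
      have hs19 : (x : ℝ) ^ (19 / 20 : ℝ) = s ^ 19 := by
        rw [hs, ← Real.rpow_natCast, ← Real.rpow_mul hx0]
        norm_num
      have hs20 : (x : ℝ) = s ^ 20 := by
        rw [hs, ← Real.rpow_natCast, ← Real.rpow_mul hx0]
        norm_num
      obtain ⟨K, _, hK0⟩ := total_bd D3 s hs1 x hs20.le
      have hK : ∑ n ∈ range (x + 1), W D3 K n ≤ C0 D3 * s ^ 19 := hK0
      classical
      have hmem : ∀ n, n ∈ PS L x → (1 ≤ n ∧ n ≤ x) ∧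
          (∀ k : ℕ, (n : ℝ) ≤ L ^ 3 * (C^[k] n : ℝ)) ∧ ∀ k : ℕ, C^[k] n ≠ 1 := by
        intro n hn
        unfold PS at hn
        obtain ⟨h1, h2⟩ := mem_filter.1 hn
        exact ⟨mem_Icc.1 h1, h2⟩
      have hsplit := Finset.card_filter_add_card_filter_not (s := PS L x)
        (fun n => 8 * n ≤ x)
      have hAb : ((((PS L x).filter (fun n => ¬ 8 * n ≤ x)).card : ℕ) : ℝ)
          ≤ (2 * L) * (C0 D3 * s ^ 19) := by
        have := markov D3 K x ((PS L x).filter (fun n => ¬ 8 * n ≤ x)) (2 * L) (by positivity) (by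
          intro n hn
          have := (hmem n (mem_filter.1 hn).1).1.2
          rw [mem_range]
          omega) (by
          intro n hn
          have h1 := hmem n (mem_filter.1 hn).1
          have h2 := (mem_filter.1 hn).2
          have h4 : (x : ℝ) < 8 * (n : ℝ) := by
            have : x < 8 * n := by omega
            exact_mod_cast this
          have h5 := h1.2.1 K
          have hL3 : (0 : ℝ) < L ^ 3 := by positivity
          apply weight_large D3 K n x ((x : ℝ) / (8 * L ^ 3)) (2 * L) h1.1.2 h1.2.2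
            (by positivity) (by positivity)
          · show (x : ℝ) ≤ (x : ℝ) / (8 * L ^ 3) * (2 * L) ^ 3
            have : (x : ℝ) / (8 * L ^ 3) * (2 * L) ^ 3 = x := by
              field_simp
              try ring
            rw [this]
          · rw [div_lt_iff₀ (by positivity)]
            nlinarith)
        refine this.trans ?_
        exact mul_le_mul_of_nonneg_left hK (by positivity)
      have hB : ((PS L x).filter (fun n => 8 * n ≤ x)).card ≤ (PS L (x / 8)).card := by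
        apply Finset.card_le_card
        intro n hn
        have h1 := hmem n (mem_filter.1 hn).1
        have h2 := (mem_filter.1 hn).2
        unfold PS
        rw [mem_filter, mem_Icc]
        refine ⟨⟨h1.1.1, ?_⟩, h1.2⟩
        rw [Nat.le_div_iff_mul_le (by norm_num), mul_comm]
        exact h2
      have hi' := ih (x / 8) (Nat.div_lt_self hx (by norm_num))
      have h8 : (2 : ℝ) ≤ (8 : ℝ) ^ (19 / 20 : ℝ) := by
        have e1 : (8 : ℝ) = 2 ^ (3 : ℝ) := by norm_num
        rw [e1, ← Real.rpow_mul (by norm_num)]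
        calc (2 : ℝ) = 2 ^ (1 : ℝ) := by norm_num
          _ ≤ 2 ^ ((3 : ℝ) * (19 / 20)) :=
            Real.rpow_le_rpow_of_exponent_le (by norm_num) (by norm_num)
      have h9 : ((x / 8 : ℕ) : ℝ) ^ (19 / 20 : ℝ) ≤ s ^ 19 / 2 := by
        have e1 : ((x / 8 : ℕ) : ℝ) ≤ (x : ℝ) / 8 := Nat.cast_div_le
        have e2 : ((x / 8 : ℕ) : ℝ) ^ (19 / 20 : ℝ) ≤ ((x : ℝ) / 8) ^ (19 / 20 : ℝ) :=
          Real.rpow_le_rpow (by positivity) e1 (by norm_num)
        rw [Real.div_rpow hx0 (by norm_num), hs19] at e2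
        refine e2.trans ?_
        exact div_le_div_of_nonneg_left (by positivity) (by norm_num) h8
      have hC := C0_pos D3
      rw [hs19]
      have hBr : ((((PS L x).filter (fun n => 8 * n ≤ x)).card : ℕ) : ℝ)
          ≤ ((PS L (x / 8)).card : ℝ) := by exact_mod_cast hB
      have hsr : ((((PS L x).filter (fun n => 8 * n ≤ x)).card : ℕ) : ℝ)
          + ((((PS L x).filter (fun n => ¬ 8 * n ≤ x)).card : ℕ) : ℝ)
          = ((PS L x).card : ℝ) := by exact_mod_cast hsplit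
      have h10 : 4 * C0 D3 * L * ((x / 8 : ℕ) : ℝ) ^ (19 / 20 : ℝ)
          ≤ 4 * C0 D3 * L * (s ^ 19 / 2) :=
        mul_le_mul_of_nonneg_left h9 (by positivity)
      nlinarith

open Classical in
theorem stopping (L : ℝ) (hL : 1 ≤ L) (x : ℕ) (hx : 1 ≤ x) :
    (((Icc 1 x).filter (fun n : ℕ => ∀ k : ℕ, (n : ℝ) ≤ L ^ 3 * (C^[k] n : ℝ))).card : ℝ)
      ≤ (4 * C0 D3 + 1) * L * (x : ℝ) ^ (19 / 20 : ℝ) := by
  have hx0 : (0 : ℝ) ≤ x := by positivity
  have hx1 : (1 : ℝ) ≤ x := by exact_mod_cast hx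
  have hL0 : 0 < L := by linarith
  set m : ℕ := min x ⌊L ^ 3⌋₊ with hm
  have hsub : (Icc 1 x).filter (fun n : ℕ => ∀ k : ℕ, (n : ℝ) ≤ L ^ 3 * (C^[k] n : ℝ))
      ⊆ PS L x ∪ Icc 1 m := by
    intro n hn
    obtain ⟨h1, h2⟩ := mem_filter.1 hn
    rw [mem_union]
    by_cases h : ∀ j : ℕ, C^[j] n ≠ 1
    · left
      unfold PS
      rw [mem_filter]
      exact ⟨h1, h2, h⟩
    · right
      push Not at h
      obtain ⟨j, hj⟩ := h
      have h3 := h2 j
      rw [hj] at h3
      rw [mem_Icc] at h1 ⊢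
      refine ⟨h1.1, ?_⟩
      rw [hm, le_min_iff]
      refine ⟨h1.2, Nat.le_floor ?_⟩
      simpa using h3
  have h2 := card_le_card hsub
  have h3 := card_union_le (PS L x) (Icc 1 m)
  rw [Nat.card_Icc, Nat.add_sub_cancel] at h3
  have h4 : (((Icc 1 x).filter (fun n : ℕ => ∀ k : ℕ, (n : ℝ) ≤ L ^ 3 * (C^[k] n : ℝ))).card : ℝ)
      ≤ ((PS L x).card : ℝ) + (m : ℝ) := by exact_mod_cast h2.trans h3
  have h5 := card_PS L hL x
  have h6 : (m : ℝ) ≤ L * (x : ℝ) ^ (19 / 20 : ℝ) := by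
    have hmx : (m : ℝ) ≤ x := by exact_mod_cast min_le_left _ _
    have hmL : (m : ℝ) ≤ L ^ 3 := by
      have e1 : m ≤ ⌊L ^ 3⌋₊ := min_le_right _ _
      have e2 : ((⌊L ^ 3⌋₊ : ℕ) : ℝ) ≤ L ^ 3 := Nat.floor_le (by positivity)
      have e3 : (m : ℝ) ≤ ((⌊L ^ 3⌋₊ : ℕ) : ℝ) := by exact_mod_cast e1
      exact e3.trans e2
    have hm0 : (0 : ℝ) ≤ m := by positivity
    calc (m : ℝ) = (m : ℝ) ^ (1 / 20 : ℝ) * (m : ℝ) ^ (19 / 20 : ℝ) := by
          rcases Nat.eq_zero_or_pos m with h0 | hp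
          · rw [h0]
            norm_num
          · rw [← Real.rpow_add (by exact_mod_cast hp)]
            norm_num
      _ ≤ L * (x : ℝ) ^ (19 / 20 : ℝ) := by
          apply mul_le_mul
          · calc (m : ℝ) ^ (1 / 20 : ℝ) ≤ (L ^ 3) ^ (1 / 20 : ℝ) :=
                  Real.rpow_le_rpow hm0 hmL (by norm_num)
              _ = L ^ (3 / 20 : ℝ) := by
                  rw [← Real.rpow_natCast, ← Real.rpow_mul hL0.le]
                  norm_num
              _ ≤ L ^ (1 : ℝ) := Real.rpow_le_rpow_of_exponent_le hL (by norm_num)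
              _ = L := Real.rpow_one L
          · exact Real.rpow_le_rpow hm0 hmx (by norm_num)
          · positivity
          · exact hL0.le
  have h7 : 0 ≤ (x : ℝ) ^ (19 / 20 : ℝ) := by positivity
  nlinarith

/-- numbers no two of which have a common iterate -/
theorem components (x : ℕ) (hx : 1 ≤ x) (S : Finset ℕ) (hS : S ⊆ Icc 1 x)
    (hd : ∀ a ∈ S, ∀ b ∈ S, a ≠ b → ∀ i j : ℕ, C^[i] a ≠ C^[j] b) :
    (S.card : ℝ) ≤ (4 * C0 D3 + 1) * (x : ℝ) ^ (19 / 20 : ℝ) := by
  classical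
  have hex : ∀ a : ℕ, ∃ i : ℕ, ∀ k : ℕ, C^[i] a ≤ C^[k] a := by
    intro a
    have hne : ∃ v : ℕ, ∃ i : ℕ, C^[i] a = v := ⟨_, 0, rfl⟩
    obtain ⟨i, hi⟩ := Nat.find_spec hne
    refine ⟨i, fun k => ?_⟩
    rw [hi]
    exact Nat.find_min' hne ⟨k, rfl⟩
  choose f hf using hex
  have h1 := stopping 1 le_rfl x hx
  have h2 : S.card ≤ ((Icc 1 x).filter
      (fun n : ℕ => ∀ k : ℕ, (n : ℝ) ≤ (1 : ℝ) ^ 3 * (C^[k] n : ℝ))).card := by
    apply Finset.card_le_card_of_injOn (fun a => C^[f a] a)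
    · intro a ha
      have ha' := mem_Icc.1 (hS (Finset.mem_coe.1 ha))
      rw [Finset.mem_coe, mem_filter, mem_Icc]
      refine ⟨⟨iter_pos _ a ha'.1, ?_⟩, ?_⟩
      · exact (hf a 0).trans ha'.2
      · intro k
        rw [one_pow, one_mul, ← Function.iterate_add_apply]
        exact_mod_cast hf a _
    · intro a ha b hb h
      by_contra hab
      exact hd a (Finset.mem_coe.1 ha) b (Finset.mem_coe.1 hb) hab _ _ h
  have h3 : (S.card : ℝ) ≤ _ := (Nat.cast_le.2 h2).trans h1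
  simpa using h3

end KakSp
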